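import Pool.Agent.U100.ZP.Spr
import Pool.Agent.U100.ZP.Seq
import Pool.Agent.U100.ZP.Box
import Pool.Agent.Results.MP_d83ecd_ag.LocalCriterion

/-!
# MP_d83ecd_ag: Zilber-Pink for almost all members of families with several parameters, along random
orbits of thin groups, metric sequences and equidistributed sequences of parameters

The Shimura variety `Y(1)^n` is identified with `ℂ^n` by the elliptic modular function.

**Families.** We consider algebraic families `X_t` of subsets of `Y(1)^n` with ANY NUMBER of parameters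
`t = (t_1, …, t_r)`, given by
* a family `B_t ⊆ P^N` of projective algebraic sets, defined by forms `G k` with coefficients in
  `Λ = ℤ[t_1, …, t_r]`,
* quotients `f_i = A_i / B_i` of forms of the same degree `d_i` over `Λ`,
* functions `s_i` integral over `Λ[j]`, `R_i (s_i, j) = 0` with `R_i` monic in the first variable (level
  one: `R_i = S - J`, `s_i = j`; in general modular functions of any level without poles in the upper half
  plane), and polynomials `c_i ∈ Λ`:
`X_t = {x | ∃ y ∈ B_t, ∃ s, ∀ i, R_i (s_i, x_i) = 0, c_i (t) s_i = A_i (y) / B_i (y)}` (`member`), the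
image of a family of subvarieties of a product of modular curves of any levels.

The family degenerates along the hypersurface `h = 0` in the space of parameters, with the orders
`e_1, …, e_n` (`DegeneratesAlong`), if `h` is of degree one in one of the variables, and for a generic point
`τ` of the hypersurface
* no point of `B_τ` lies on `m + 1` of the divisors of the `f_i` (at `t = τ`),
* the nonzero coefficients of the `R_i` do not vanish at `τ` (nothing, if they are integers), and
* `c_i` has the exact order `e_i` along `h = 0`: `c_i = h ^ (e_i) g_i`, `g_i (τ) ≠ 0`.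

It is `Degenerate` if it degenerates along `n (n - 1) / 2 + 1` hypersurfaces `h_l = 0` with independent
orders: `e_{l i} > 0`, and `q e_{l i} e_{l j} e_{l' i} e_{l' j}` is not a square for `l ≠ l'`, `i ≠ j`,
`1 ≤ q ≤ T^8`, where `T` bounds the degrees of the `R_i` (`T = 1` for level one). For example let
`V ⊂ Y(1)^n` be any subvariety of dimension `m` over `ℚ` such that no `m + 1` of the coordinates are all in
`{0, ∞}` at a point of the closure of `V`; then the family of the scalings of `V` by
`c_i (t) ^ (-1)`, `c_i = ∏_l h_l (t) ^ (e_{l i})`, is degenerate for all polynomials `h_l`, different up to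
factors and of degree one in some of the variables.

**Theorem.** Let `x_0, x_1, x_2, …` be
1. almost any random orbit of a nonzero vector of `ℤ^r`, `r ≥ 2`, under a finite family of matrices of
   `SL_r(ℤ)` which generates `SL_r(ℤ/q)` for all `q` prime to some number (for example generators of a
   Zariski dense subgroup, of infinite index: a thin group; the orbits have exponential growth), or
2. the sequence of the vectors of the integral parts of `f_{i n} (α_i)` for Koksma sequences of functions,
   of the integral parts of `a_{i n} α_i` for real numbers `a_{i n}` with mutual distances `≥ δ`, or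
   of the integral parts of `ξ_i α_i ^ (k_n)` for different `k_n`, for almost all `α ∈ ℝ^r` (`α_i > 1`), or
3. any sequence of vectors which is equidistributed modulo all `q` prime to some number, along a sequence
   of finite sets `S N` of times (for example the primes up to `N`).
Then there is ONE set `E` of times of density zero (relative to the sets `S N` in the last case) such that
for ALL `n`, `m`, all degenerate families `X_t` and all countable fields `K` the member `X_{x_k}` has no
atypical intersection with special subvarieties `Z` of `Y(1)^n` for all but finitely many times `k`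
outside `E`: every irreducible closed subset of `X_{x_k} ∩ Z` has dimension at most `dim Z + m - n`, and the
same bound holds for the transcendence degrees of the points of `X_{x_k} ∩ Z` over `K`. (The constant
coordinates of `Z` can be special points or arbitrary algebraic integers.)
4. In particular for each degenerate family almost all members with integral parameters in a box
   `[-H, H]^r`, `H → ∞`, have no atypical intersection.

The members `X_t` with `t` in these sequences are a set of density zero among all integral members, so that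
theorems on almost all members in boxes do not say anything about them.

The proof: Nullstellensatz with denominators over the function field of the hypersurface `h_l = 0`
(`Pool.Agent.U100.ZP.spread`) gives `G_l ∈ Λ`, not divisible by `h_l`, such that modulo each prime `p` with
`p ∣ h_l (t)`, `p ∤ G_l (t)` the data of `X_t` are in general position; the local criterion of the
starting file `LocalCriterion` then applies to `X_t`. The points `t` without such primes are a
closed set of Haar measure zero in the product of the `ℤ_p^r`, which is avoided by the sequences at almost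
all times (library `Pool.Agent.N24`, `Pool.Agent.N618`, `Pool.Agent.N918`).
-/

set_option autoImplicit false

namespace Pool.Agent.Results.MP_d83ecd_ag.FamiliesAlongSequences

open MvPolynomial MeasureTheory
open Pool.Agent.Results.MP_d83ecd_ag.LocalCriterion (InGeneralPosition scaledImage NoAtypical
  IndependentExponents)
open Pool.Agent.N24.RW (Walk orb words)
open Pool.Agent.N24.KM (Koksma)
open Pool.Agent.N918.EQ (Equi)

/-- the value at `τ` of a polynomial in the parameters, as a homomorphism -/
noncomputable def evalAt {r : ℕ} (τ : Fin r → ℂ) : MvPolynomial (Fin r) ℤ →+* ℂ :=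
  (aeval τ : MvPolynomial (Fin r) ℤ →ₐ[ℤ] ℂ).toRingHom

/-- The data of a family of subsets of `Y(1)^n` with the parameters `t_1, …, t_r`. -/
structure Family (r n T : ℕ) where
  κ : Type
  N : ℕ
  G : κ → MvPolynomial (Fin (N + 1)) (MvPolynomial (Fin r) ℤ)
  homG : ∀ k, ∃ e, (G k).IsHomogeneous e
  A : Fin n → MvPolynomial (Fin (N + 1)) (MvPolynomial (Fin r) ℤ)
  B : Fin n → MvPolynomial (Fin (N + 1)) (MvPolynomial (Fin r) ℤ)
  d : Fin n → ℕ
  homA : ∀ i, (A i).IsHomogeneous (d i)
  homB : ∀ i, (B i).IsHomogeneous (d i)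
  R : Fin n → Polynomial (Polynomial (MvPolynomial (Fin r) ℤ))
  monic : ∀ i, (R i).Monic
  degree : ∀ i u w, ((R i).coeff u).coeff w ≠ 0 → u ≤ T ∧ w ≤ T
  c : Fin n → MvPolynomial (Fin r) ℤ

/-- The member of the family with the parameter `τ`: the points `x` for which there are numbers `s_i`
with `R_i (s_i, x_i) = 0` and `c_i s_i = A_i (y) / B_i (y)` for a point `y` of `B_τ`. -/
def Family.member {r n T : ℕ} (X : Family r n T) (τ : Fin r → ℂ) : Set (Fin n → ℂ) :=
  scaledImage (evalAt τ) X.G X.A X.B X.R X.c

/-- `τ` is a generic point of the hypersurface `h = 0` in the space of parameters, where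
`h = a t_i + b` is of degree one in the variable `t_i`: the other coordinates of `τ` are algebraically
independent. -/
def Generic {r : ℕ} (h : MvPolynomial (Fin r) ℤ) (τ : Fin r → ℂ) : Prop :=
  ∃ (i : Fin r) (a b : MvPolynomial (Fin r) ℤ), i ∉ a.vars ∧ i ∉ b.vars ∧ a ≠ 0 ∧
    h = a * X i + b ∧ aeval τ h = 0 ∧ AlgebraicIndependent ℤ (fun j : {j : Fin r // j ≠ i} => τ j)

/-- The family degenerates along the hypersurface `h = 0`: at a generic point `τ` the divisors are in
general position (no point of `B_τ` lies on `m + 1` of them), the nonzero coefficients of the `R i` do not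
vanish at `τ`, and `c i` has the exact order `e i` along `h = 0`. -/
def Family.DegeneratesAlong {r n T : ℕ} (X : Family r n T) (m : ℕ) (h : MvPolynomial (Fin r) ℤ)
    (e : Fin n → ℕ) : Prop :=
  ∃ τ : Fin r → ℂ, Generic h τ ∧ InGeneralPosition (evalAt τ) m X.G X.A X.B ∧
    (∀ i u w, ((X.R i).coeff u).coeff w ≠ 0 → evalAt τ (((X.R i).coeff u).coeff w) ≠ 0) ∧
    ∀ i, ∃ g, X.c i = h ^ e i * g ∧ evalAt τ g ≠ 0

/-- The family degenerates along `n (n - 1) / 2 + 1` hypersurfaces with independent orders. -/
def Family.Degenerate {r n T : ℕ} (X : Family r n T) (m : ℕ) : Prop :=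
  ∃ (h : Fin (n.choose 2 + 1) → MvPolynomial (Fin r) ℤ) (e : Fin (n.choose 2 + 1) → Fin n → ℕ),
    IndependentExponents T e ∧ ∀ l, X.DegeneratesAlong m (h l) (e l)

/-- the member with the integral parameters `z_1, …, z_r` has no atypical intersection with special
subvarieties -/
def Family.Good {r n T : ℕ} (X : Family r n T) (m : ℕ) (K : Subfield ℂ) (z : Fin r → ℤ) : Prop :=
  NoAtypical (Int.castRingHom ℂ) K m (X.member fun i => (z i : ℂ))

/-- `E` has density zero relative to the sets `S N` of times. -/
def NullIn (S : ℕ → Finset ℕ) (E : Set ℕ) : Prop :=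
  ∀ ε : ℝ, 0 < ε → ∃ N₀ : ℕ, ∀ N : ℕ, N₀ ≤ N →
    (({k : ℕ | k ∈ S N ∧ k ∈ E}.ncard : ℕ) : ℝ) ≤ ε * (S N).card

/-- There is ONE set `E` of times of density zero such that for all degenerate families the members with
the parameters `x_k` have no atypical intersection for all but finitely many times `k` outside `E`. -/
def OneNullSet {r : ℕ} (S : ℕ → Finset ℕ) (x : ℕ → Fin r → ℤ) : Prop :=
  ∃ E : Set ℕ, NullIn S E ∧ ∀ (n m T : ℕ) (X : Family r n T), X.Degenerate m →
    ∀ (K : Subfield ℂ) [Countable K], {k : ℕ | k ∉ E ∧ ¬ X.Good m K (x k)}.Finite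

theorem eval_comp {r : ℕ} (z : Fin r → ℤ) : (Int.castRingHom ℂ).comp (eval z) =
    evalAt fun i => (z i : ℂ) := by
  refine MvPolynomial.ringHom_ext (fun c => ?_) (fun i => ?_)
  · simp [evalAt]
  · simp [evalAt]

/-- The local criterion for the members of a family. -/
theorem local_family {r n T : ℕ} (X : Family r n T) {m : ℕ}
    {h : Fin (n.choose 2 + 1) → MvPolynomial (Fin r) ℤ} {e : Fin (n.choose 2 + 1) → Fin n → ℕ}
    (he : IndependentExponents T e) (hX : ∀ l, X.DegeneratesAlong m (h l) (e l)) :
    ∃ G : Fin (n.choose 2 + 1) → MvPolynomial (Fin r) ℤ,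
      (∀ l, h l ≠ 0 ∧ Pool.Agent.N603.TH.Divergent (h l) (G l)) ∧
      ∀ z : Fin r → ℤ, (∀ l, ∃ p : ℕ, p.Prime ∧ (p : ℤ) ∣ eval z (h l) ∧ ¬ (p : ℤ) ∣ eval z (G l)) →
        ∀ (K : Subfield ℂ) [Countable K], X.Good m K z := by
  classical
  choose τ hτ hpos hcoef hord using hX
  choose g hg1 hg2 using hord
  -- the systems of equations
  let P : Finset (Fin n) → (X.κ ⊕ Fin n) → MvPolynomial (Fin (X.N + 1)) (MvPolynomial (Fin r) ℤ) :=
    fun I b => Sum.elim (fun k => X.G k) (fun i => if i ∈ I then X.A i * X.B i else 0) b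
  have hP : ∀ l, ∀ I : Finset (Fin n), I.card = m + 1 → ∀ y : Fin (X.N + 1) → ℂ,
      (∀ b, eval₂ (evalAt (τ l)) y (P I b) = 0) → y = 0 := by
    intro l I hI y hy
    by_contra h0
    obtain ⟨i, hi, h1⟩ := hpos l I hI y ⟨h0, fun k => hy (Sum.inl k)⟩
    apply h1
    have h2 := hy (Sum.inr i)
    simp only [P, Sum.elim_inr, if_pos hi, eval₂_mul] at h2
    exact h2
  have hsp : ∀ l, ∀ I : Finset (Fin n), ∃ Q : MvPolynomial (Fin r) ℤ, evalAt (τ l) Q ≠ 0 ∧
      (I.card = m + 1 → ∀ {F : Type} [Field F] (φ : MvPolynomial (Fin r) ℤ →+* F), φ (h l) = 0 →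
        φ Q ≠ 0 → ∀ y : Fin (X.N + 1) → F, (∀ b, eval₂ φ y (P I b) = 0) → y = 0) := by
    intro l I
    by_cases hI : I.card = m + 1
    · obtain ⟨Q, hQ1, hQ2⟩ := Pool.Agent.U100.ZP.spread (hτ l) (P I) (hP l I hI)
      exact ⟨Q, hQ1, fun _ => hQ2⟩
    · exact ⟨1, by rw [map_one]; exact one_ne_zero, fun h => absurd h hI⟩
  choose Q hQ1 hQ2 using hsp
  -- the product of the nonzero coefficients
  let rc : Fin n × Fin (T + 1) × Fin (T + 1) → MvPolynomial (Fin r) ℤ := fun x =>
    if ((X.R x.1).coeff x.2.1).coeff x.2.2 = 0 then 1 else ((X.R x.1).coeff x.2.1).coeff x.2.2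
  let G : Fin (n.choose 2 + 1) → MvPolynomial (Fin r) ℤ := fun l =>
    (∏ I : Finset (Fin n), Q l I) * (∏ x, rc x) * ∏ i, g l i
  have hG : ∀ l, evalAt (τ l) (G l) ≠ 0 := by
    intro l
    simp only [G, map_mul, map_prod]
    refine mul_ne_zero (mul_ne_zero (Finset.prod_ne_zero_iff.2 fun I _ => hQ1 l I)
      (Finset.prod_ne_zero_iff.2 fun x _ => ?_)) (Finset.prod_ne_zero_iff.2 fun i _ => hg2 l i)
    simp only [rc]
    split_ifs with h0
    · rw [map_one]
      exact one_ne_zero
    · exact hcoef l _ _ _ h0
  refine ⟨G, fun l => ?_, fun z hz K _ => ?_⟩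
  · obtain ⟨i, hi⟩ := Pool.Agent.U100.ZP.linearIn_of (hτ l)
    exact ⟨Pool.Agent.N603.TH.linear_ne_zero (hi _ (hG l)),
      Pool.Agent.N603.TH.divergent_linear (hi _ (hG l))⟩
  · choose p hp hph hpG using hz
    have hev := eval_comp z
    have h1 := LocalCriterion.main (Int.castRingHom ℂ) (Int.castRingHom ℂ).injective_int K
      (fun a => by simp) (m := m) (T := T)
      (fun k => MvPolynomial.map (eval z) (X.G k))
      (fun k => by
        obtain ⟨e, he⟩ := X.homG k
        exact ⟨e, he.map _⟩)
      (fun i => MvPolynomial.map (eval z) (X.A i)) (fun i => MvPolynomial.map (eval z) (X.B i)) X.d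
      (fun i => (X.homA i).map _) (fun i => (X.homB i).map _)
      (fun i => (X.R i).map (Polynomial.mapRingHom (eval z))) (fun i => (X.monic i).map _)
      (by
        intro i u w h0
        rw [Polynomial.coeff_map, Polynomial.coe_mapRingHom, Polynomial.coeff_map] at h0
        exact X.degree i u w fun h1 => h0 (by rw [h1, map_zero]))
      (fun i => eval z (X.c i)) e he (fun l => ?_)
    · -- the member
      unfold Family.Good Family.member
      have h2 : scaledImage (evalAt fun i => (z i : ℂ)) X.G X.A X.B X.R X.c =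
          scaledImage (Int.castRingHom ℂ) (fun k => MvPolynomial.map (eval z) (X.G k))
            (fun i => MvPolynomial.map (eval z) (X.A i)) (fun i => MvPolynomial.map (eval z) (X.B i))
            (fun i => (X.R i).map (Polynomial.mapRingHom (eval z))) (fun i => eval z (X.c i)) := by
        have e1 : ∀ (y : Fin (X.N + 1) → ℂ)
            (f : MvPolynomial (Fin (X.N + 1)) (MvPolynomial (Fin r) ℤ)),
            eval₂ (Int.castRingHom ℂ) y (MvPolynomial.map (eval z) f) =
              eval₂ (evalAt fun i => (z i : ℂ)) y f := by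
          intro y f
          rw [eval₂_map, hev]
        have e2 : ∀ (f : MvPolynomial (Fin r) ℤ), Int.castRingHom ℂ (eval z f) =
            evalAt (fun i => (z i : ℂ)) f := by
          intro f
          rw [← hev]
          rfl
        have e3 : ∀ (R : Polynomial (Polynomial (MvPolynomial (Fin r) ℤ))) (s x : ℂ),
            LocalCriterion.valueAt (Int.castRingHom ℂ)
              (R.map (Polynomial.mapRingHom (eval z))) s x =
              LocalCriterion.valueAt (evalAt fun i => (z i : ℂ)) R s x := by
          intro R s x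
          unfold LocalCriterion.valueAt
          rw [Polynomial.eval₂_map]
          congr 1
          refine Polynomial.ringHom_ext (fun a => ?_) ?_
          · change Polynomial.eval₂ (Int.castRingHom ℂ) x (Polynomial.map (eval z) (Polynomial.C a)) =
              Polynomial.eval₂ (evalAt fun i => (z i : ℂ)) x (Polynomial.C a)
            rw [Polynomial.map_C, Polynomial.eval₂_C, Polynomial.eval₂_C, e2]
          · simp
        unfold scaledImage LocalCriterion.OnB
        simp only [e1, e2, e3]
      rw [h2]
      exact h1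
    · -- the places
      have hpp : Fact (p l).Prime := ⟨hp l⟩
      let F := AlgebraicClosure (ZMod (p l))
      have hchar : CharP F (p l) := charP_of_injective_algebraMap
        (algebraMap (ZMod (p l)) F).injective (p l)
      have hred : ∀ a : ℤ, Int.castRingHom F a = 0 ↔ ((p l : ℕ) : ℤ) ∣ a := by
        intro a
        rw [eq_intCast]
        exact CharP.intCast_eq_zero_iff F (p l) a
      have hdvd : ∀ f : MvPolynomial (Fin r) ℤ, f ∣ G l → ¬ ((p l : ℕ) : ℤ) ∣ eval z f := by
        rintro f ⟨f', hf⟩ h3
        apply hpG l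
        rw [hf, map_mul]
        exact h3.mul_right _
      exact
        { F := F
          red := Int.castRingHom F
          general := by
            intro I hI y hy
            by_contra hcon
            push Not at hcon
            apply hy.1
            refine hQ2 l I hI ((Int.castRingHom F).comp (eval z)) ((hred _).2 (hph l)) ?_ y ?_
            · intro h3
              refine hdvd (Q l I) ?_ ((hred _).1 h3)
              exact ((Finset.dvd_prod_of_mem _ (Finset.mem_univ I)).mul_right _).mul_right _
            · rintro (k | i)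
              · have h3 := hy.2 k
                rw [eval₂_map] at h3
                exact h3
              · simp only [P, Sum.elim_inr]
                split_ifs with hi
                · have h3 := hcon i hi
                  rw [eval₂_map, eval₂_map] at h3
                  rw [eval₂_mul]
                  exact h3
                · rw [eval₂_zero]
          coeff_ne := by
            intro i u w h0 h3
            rw [Polynomial.coeff_map, Polynomial.coe_mapRingHom, Polynomial.coeff_map] at h0 h3
            have hne : ((X.R i).coeff u).coeff w ≠ 0 := fun h4 => h0 (by rw [h4, map_zero])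
            obtain ⟨hu, hw⟩ := X.degree i u w hne
            refine hdvd (((X.R i).coeff u).coeff w) ?_ ((hred _).1 h3)
            have h4 : rc (i, ⟨u, by omega⟩, ⟨w, by omega⟩) = ((X.R i).coeff u).coeff w := by
              simp only [rc]
              rw [if_neg hne]
            rw [← h4]
            exact ((Finset.dvd_prod_of_mem rc (Finset.mem_univ _)).mul_left _).mul_right _
          ϖ := eval z (h l)
          red_ϖ := (hred _).2 (hph l)
          order := by
            intro i
            refine ⟨1, eval z (g l i), ?_, ?_, ?_⟩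
            · rw [map_one]
              exact one_ne_zero
            · intro h3
              refine hdvd (g l i) ?_ ((hred _).1 h3)
              exact (Finset.dvd_prod_of_mem _ (Finset.mem_univ i)).mul_left _
            · rw [hg1 l i, map_mul, map_pow]
              ring }

theorem oneNullSet_of {r : ℕ} {S : ℕ → Finset ℕ} {x : ℕ → Fin r → ℤ}
    (hx : Pool.Agent.U100.ZP.AllPairs S x) : OneNullSet S x := by
  classical
  obtain ⟨E, hE, hfin⟩ := hx
  refine ⟨E, hE, ?_⟩
  rintro n m T X ⟨h, e, he, hX⟩ K _
  obtain ⟨G, hG, hgood⟩ := local_family X he hX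
  refine (Set.finite_iUnion fun l : Fin (n.choose 2 + 1) =>
    hfin (h l) (G l) (hG l).1 (hG l).2).subset ?_
  rintro k ⟨hk, hbad⟩
  by_contra hcon
  rw [Set.mem_iUnion] at hcon
  push Not at hcon
  apply hbad
  refine hgood (x k) (fun l => ?_) K
  have h1 : x k ∉ Pool.Agent.N618.RO.Bd (h l) (G l) 0 := fun h2 => hcon l ⟨hk, h2⟩
  unfold Pool.Agent.N618.RO.Bd at h1
  rw [Set.mem_ofPred_eq, not_not] at h1
  obtain ⟨-, p, hp, -, hp1, hp2⟩ := h1
  exact ⟨p, hp, hp1, hp2⟩

theorem box_of {r n T : ℕ} (X : Family r n T) {m : ℕ} (hX : X.Degenerate m) (K : Subfield ℂ)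
    [Countable K] (ε : ℝ) (hε : 0 < ε) : ∃ H₀ : ℕ, ∀ H : ℕ, H₀ ≤ H →
      (({z : Fin r → ℤ | (∀ i, |z i| ≤ (H : ℤ)) ∧ ¬ X.Good m K z}.ncard : ℕ) : ℝ) ≤
        ε * (2 * H + 1 : ℝ) ^ r := by
  classical
  obtain ⟨h, e, he, hX⟩ := hX
  obtain ⟨G, hG, hgood⟩ := local_family X he hX
  have hne : Nonempty (Fin r) := by
    obtain ⟨τ, ⟨i, -⟩, -⟩ := hX 0
    exact ⟨i⟩
  have h1 : Pool.Agent.N24.RW.ProNull (⋃ l, Pool.Agent.N618.RO.Bd (h l) (G l) 0) :=
    Pool.Agent.N618.RO.proNull_iUnion Pool.Agent.N24.RW.clo _ fun l =>
      Pool.Agent.N618.RO.bd_null Pool.Agent.N24.RW.crit Pool.Agent.N24.RW.clo (hG l).1 (hG l).2 0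
  obtain ⟨H₀, hH₀⟩ := Pool.Agent.U100.ZP.box_of_null h1 ε hε
  refine ⟨H₀, fun H hH => le_trans ?_ (hH₀ H hH)⟩
  have h2 : {z : Fin r → ℤ | (∀ i, |z i| ≤ (H : ℤ)) ∧ ¬ X.Good m K z} ⊆
      {z : Fin r → ℤ | (∀ i, |z i| ≤ (H : ℤ)) ∧ z ∈ ⋃ l, Pool.Agent.N618.RO.Bd (h l) (G l) 0} := by
    rintro z ⟨hz, hbad⟩
    refine ⟨hz, ?_⟩
    by_contra hcon
    rw [Set.mem_iUnion] at hcon
    push Not at hcon
    apply hbad
    refine hgood z (fun l => ?_) K
    have h1 := hcon l
    unfold Pool.Agent.N618.RO.Bd at h1
    rw [Set.mem_ofPred_eq, not_not] at h1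
    obtain ⟨-, p, hp, -, hp1, hp2⟩ := h1
    exact ⟨p, hp, hp1, hp2⟩
  have hfin : {z : Fin r → ℤ | (∀ i, |z i| ≤ (H : ℤ)) ∧
      z ∈ ⋃ l, Pool.Agent.N618.RO.Bd (h l) (G l) 0}.Finite := by
    refine (Set.Finite.pi fun _ : Fin r => Set.finite_Icc (-(H : ℤ)) H).subset ?_
    rintro z ⟨hz, -⟩ i -
    exact Set.mem_Icc.2 (abs_le.1 (hz i))
  exact_mod_cast Set.ncard_le_ncard h2 hfin

/-- **Zilber-Pink for almost all members of degenerate families with several parameters, along random
orbits, metric sequences and equidistributed sequences of integral parameters.** -/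
theorem result :
    -- (1) random orbits
    (∀ r : ℕ, 2 ≤ r → ∀ (W : Walk (Fin r)) (v : Fin r → ℤ), v ≠ 0 →
      ∀ᵐ w ∂(words W.m), OneNullSet Finset.range (orb W v w)) ∧
    -- (2) metric sequences
    (∀ r : ℕ,
      (∀ (a b : Fin r → ℝ) (f : Fin r → ℕ → ℝ → ℝ), (∀ i, a i < b i) →
        (∀ i, Koksma (a i) (b i) (f i)) →
        ∀ᵐ α : Fin r → ℝ, (∀ i, α i ∈ Set.Icc (a i) (b i)) →
          OneNullSet Finset.range (fun k i => ⌊f i k (α i)⌋)) ∧
      (∀ (a : Fin r → ℕ → ℝ) (δ : ℝ), 0 < δ → (∀ i j k, j ≠ k → δ ≤ |a i j - a i k|) →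
        ∀ᵐ α : Fin r → ℝ, OneNullSet Finset.range (fun k i => ⌊a i k * α i⌋)) ∧
      (∀ (q : ℕ → ℕ) (ξ : Fin r → ℝ), Function.Injective q → (∀ i, ξ i ≠ 0) →
        ∀ᵐ α : Fin r → ℝ, (∀ i, 1 < α i) →
          OneNullSet Finset.range (fun k i => ⌊ξ i * α i ^ q k⌋))) ∧
    -- (3) equidistributed sequences
    (∀ (r : ℕ) (S : ℕ → Finset ℕ) (x : ℕ → Fin r → ℤ), Equi S x → OneNullSet S x) ∧
    -- (4) all integral members of one family
    (∀ (r n m T : ℕ) (X : Family r n T), X.Degenerate m → ∀ (K : Subfield ℂ) [Countable K] (ε : ℝ),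
      0 < ε → ∃ H₀ : ℕ, ∀ H : ℕ, H₀ ≤ H →
        (({z : Fin r → ℤ | (∀ i, |z i| ≤ (H : ℤ)) ∧ ¬ X.Good m K z}.ncard : ℕ) : ℝ) ≤
          ε * (2 * H + 1 : ℝ) ^ r) := by
  refine ⟨fun r hr W v hv => ?_, fun r => ⟨fun a b f hab hf => ?_, fun a δ hδ ha => ?_,
    fun q ξ hq hξ => ?_⟩, fun r S x hx => ?_, fun r n m T X hX K _ ε hε => box_of X hX K ε hε⟩
  · filter_upwards [Pool.Agent.U100.ZP.allPairs_orb hr W v hv] with w hw
    exact oneNullSet_of hw
  · filter_upwards [(Pool.Agent.U100.ZP.allPairs_metric r).1 a b f hab hf] with α hα h1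
    exact oneNullSet_of (hα h1)
  · filter_upwards [(Pool.Agent.U100.ZP.allPairs_metric r).2.1 a δ hδ ha] with α hα
    exact oneNullSet_of hα
  · filter_upwards [(Pool.Agent.U100.ZP.allPairs_metric r).2.2 q ξ hq hξ] with α hα h1
    exact oneNullSet_of (hα h1)
  · exact oneNullSet_of (Pool.Agent.U100.ZP.allPairs_equi hx)

end Pool.Agent.Results.MP_d83ecd_ag.FamiliesAlongSequences
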