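import Pool.Agent.U854.CL.Line
import Pool.Agent.U854.SA.Res

/-!
# MP_d83ecd_ag: Zilber-Pink for subvarieties of `Y(1)^n` near to a single ordinary CM point

`Y(1)^n` is identified with `ℂ^n` by the elliptic modular function `jj = j = E₄³ / Δ`. A special
subvariety of dimension `r` is given by a `SpecialVariety n r`: the constant coordinates are CM
points, the coordinates of class `l` are `j (g_i z_l)` with `z_1, …, z_r` free in the upper half plane
and integral matrices `g_i` of positive determinant.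

**The local law** (part 1 of `result`). Let `V` be a valuation ring of `ℂ` above the prime number
`p ≠ 2`, and let `a = j(τ)` be a CM point, ordinary at `p`, such that `a` and `a - 1728` are units. If
`x` and `x'` are isogenous, different from `a`, and `|x - a|^(p-1) < |p|`, `|x' - a|^(p-1) < |p|`, then

  `(x' - a) / (x - a)` is the product of a rational number and an element of `1 + 𝔪`.

(By the theory of Serre and Tate the functions `x` near to `a` have the coordinate `q(x)`, and an isogeny
raises `q` to a rational power; `log q(x)` is near to a multiple of `x - a`.)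

**The setting.** Let `K` be a number field, `σ : K → ℂ`, `v` a prime of `K` above `p`, and let
`B ⊆ (P¹)^s` be a variety of any dimension given by multihomogeneous forms `H_t` over `𝓞 K`; let
`N_i`, `M_i` (`i ≤ n`) be forms over `𝓞 K` of the same multidegrees. The set `X ⊆ Y(1)^n` consists of
points `(c_i + μ_i N_i(z) / M_i(z))_i` with `z ∈ B(ℂ)`. Each coordinate has one of two local types
(`LocalData`):

* near to a CM point (`i ∉ C`): `c_i = j(τ_i)` is a CM point, ordinary at `p ≠ 2` and not congruent to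
  `0` or `1728`, and `|μ_i|^(p-1) < |p|`. *All the CM points `c_i` may be equal.* For `i ≠ j` we suppose
  that the CM points are not isogenous, or that `|μ_i| / |μ_j|` is not a power of `|p|`, or that
  `c_i = c_j` and `μ_i / μ_j` is a power of `p` (`Parallel`);
* near to the cusp (`i ∈ C`): `v(μ_i)` is a pole, and `c_i` is smaller than `μ_i`.

At a point `(η_i : θ_i)_i` of the reduction modulo `v` of the closure of the graph of `N / M`, two
coordinates are *linked* if both are near to the cusp, or if they are parallel and `y_j = f y_i` with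
`f ∈ 𝔽_p`, where `y_i = η_i / θ_i`. The reduction is in *linear position* (`LinearPosition`) if at each
of its points over extension fields of `𝓞 K / v` there is a set `S` of coordinates different from `0`
and `∞`, which are pairwise not linked, such that the number of algebraically independent `y_i` is at
most `m + |S| - n`.

**Theorem** (`result`).
2. If the reduction is in linear position at *one* place then `X` has no atypical intersection with
   special subvarieties: for each special `Z` of dimension `r` the points of `X ∩ Z` have transcendence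
   degree at most `r + m - n`, and every irreducible closed subset of `X ∩ Z` has dimension at most
   `r + m - n`.
3. In particular this holds with `m = 1` for the rational curves `(c_i + μ_i N_i(t) / M_i(t))_i` with
   binary forms `N_i`, `M_i` of the same degree, if at every point of the projective line over an
   extension of `𝓞 K / v` all the coordinates with at most one exception are different from `0`, `∞` and
   pairwise not linked, and without exception if the point is transcendental over `𝓞 K / v`.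

The starting result `OrdinaryPlace` and our `MixedPlaces` suppose that the CM points of different
coordinates are not isogenous; here all the coordinates of `X` may be near to the same CM point.

Proof of the local law: the canonical quotient `φ` (starting library `Pool.Agent.N135.ZO`) is
expanded to first order, `φ(x) - φ(a) = (x - a) D_a (1 + 𝔪)`, where `D_a` is the quotient of the complex
derivatives at the CM point, `|D_a| = |p|`. Iterating, isogenous points become isogenous of a degree
`N` prime to `p`, and tend to CM points. At a pair of CM points the leading form of the modular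
equation of level `N` is a product of linear forms `Y - s_κ X`, where `s_κ` are the derivatives of the
isogenies of degree `N` between them (computed over `ℂ`), and the higher terms are small since
different CM points have distance at least `|p|`. So `(x' - a) / (x - a)` is near to the derivative of a
self-isogeny of `a` (here we use that `j` is injective on `SL₂(ℤ) \ ℍ`, which is proved with the
Weierstrass `℘`-function), an element of `ℚ(τ)`; and as `p` splits there, `ℚ(τ)^* ⊆ ℚ^* (1 + 𝔪)`.
-/

set_option autoImplicit false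

namespace Pool.Agent.Results.MP_d83ecd_ag.FirstOrder

open UpperHalfPlane H294ZP NumberField IsDedekindDomain

/-- A special subvariety of dimension `r` of `Y(1)^n`: a map `cls` from the coordinates onto `r`
classes (`none` for the constant coordinates), an integral matrix of positive determinant for each
coordinate, and a CM point for each coordinate. -/
structure SpecialVariety (n r : ℕ) where
  cls : Fin n → Option (Fin r)
  surj : ∀ l : Fin r, ∃ i, cls i = some l
  mat : Fin n → Matrix (Fin 2) (Fin 2) ℤ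
  det_pos : ∀ i, 0 < (mat i).det
  cm : Fin n → ℍ
  isCM : ∀ i, IsCM (cm i)

/-- The points of a special subvariety: the constant coordinates are the singular moduli
`j (cm i)`, the other coordinates are `j (g_i z_l)`, where `l` is the class of `i`, `g_i = mat i` and
`z_1, …, z_r` are free parameters in the upper half plane. -/
def SpecialVariety.locus {n r : ℕ} (Z : SpecialVariety n r) : Set (Fin n → ℂ) :=
  {x | ∃ z : Fin r → ℍ, ∀ i, (Z.cls i = none → x i = jj (Z.cm i)) ∧
    ∀ l, Z.cls i = some l → ∃ w : ℍ,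
      (w : ℂ) * (Z.mat i 1 0 * z l + Z.mat i 1 1) = Z.mat i 0 0 * z l + Z.mat i 0 1 ∧ x i = jj w}

/-- The CM point `τ` is ordinary at `p`: `τ` is fixed by an integral matrix `M` whose determinant is
a power of `p` and whose trace is prime to `p` (`p` splits in the field `ℚ(τ)` and does not divide
the conductor). -/
def OrdinaryAt (p : ℕ) (τ : ℍ) : Prop :=
  ∃ (e : ℕ) (M : Matrix (Fin 2) (Fin 2) ℤ), 0 < e ∧ M.det = (p : ℤ) ^ e ∧ ¬ (p : ℤ) ∣ M.trace ∧
    (τ : ℂ) * (M 1 0 * τ + M 1 1) = M 0 0 * τ + M 0 1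

/-- `x` and `x'` are the `j`-invariants of isogenous elliptic curves. -/
def Isogenous (x x' : ℂ) : Prop :=
  ∃ (g : Matrix (Fin 2) (Fin 2) ℤ) (τ τ' : ℍ), 0 < g.det ∧
    (τ' : ℂ) * (g 1 0 * τ + g 1 1) = g 0 0 * τ + g 0 1 ∧ jj τ = x ∧ jj τ' = x'

/-- A form with coefficients in `R` which is homogeneous of degree `deg i` in `(ξ i, ζ i)` for each
`i`: the coefficients of the monomials `∏ ξ_i ^ (e_i) ζ_i ^ (deg i - e_i)`. -/
structure MultiForm (R : Type) (s : ℕ) where
  deg : Fin s → ℕ
  coeff : ((i : Fin s) → Fin (deg i + 1)) → R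

/-- The value of the form at a point over `k`, for a ring homomorphism `R → k`. -/
def MultiForm.eval {R k : Type} [CommRing R] [CommRing k] {s : ℕ} (F : MultiForm R s) (π : R →+* k)
    (ξ ζ : Fin s → k) : k :=
  ∑ e, π (F.coeff e) * ∏ i, ξ i ^ (e i : ℕ) * ζ i ^ (F.deg i - e i)

/-- reduction modulo an ideal, followed by the inclusion into an extension -/
def reduction {R : Type} [CommRing R] (v : Ideal R) (k : Type) [Field k] [Algebra (R ⧸ v) k] :
    R →+* k :=
  (algebraMap (R ⧸ v) k).comp (Ideal.Quotient.mk v)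

/-- The coordinate `c + μ y` is near to a CM point: `c = j(τ)` is a CM point, ordinary at the odd prime
number `p` under `v` and not congruent to `0` or `1728`, and `μ ≠ 0`, `|μ|^(p-1) < |p|`. -/
structure NearCM {K : Type} [Field K] [NumberField K] (σ : K →+* ℂ)
    (v : HeightOneSpectrum (𝓞 K)) (p : ℕ) (τ : ℍ) (c μ : K) : Prop where
  odd : p ≠ 2
  j_eq : jj τ = σ c
  cm : IsCM τ
  ordinary : OrdinaryAt p τ
  not_zero : v.valuation K c = 1
  not_1728 : v.valuation K (c - 1728) = 1
  scale_ne : μ ≠ 0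
  scale_lt : v.valuation K μ ^ (p - 1) < v.valuation K p

/-- The centres are equal and the quotient of the scales is a power of `p`. -/
def Parallel {K : Type} [Field K] (p : ℕ) (c μ c' μ' : K) : Prop :=
  c = c' ∧ ∃ s t : ℕ, μ * (p : K) ^ s = μ' * (p : K) ^ t

/-- A place `v` of a number field `K` embedded into `ℂ`, and for each coordinate a centre `c_i` and a
scale `μ_i` in `K`. The coordinates `i ∈ C` are near to the cusp: `μ_i` has a pole at `v`, and `c_i` is
smaller than `μ_i`. The others are near to CM points; for two of them the CM points are not isogenous,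
or the quotient of the absolute values of the scales is not a power of `|p|`, or they are parallel. -/
structure LocalData (n : ℕ) where
  K : Type
  [field : Field K]
  [numberField : NumberField K]
  σ : K →+* ℂ
  v : HeightOneSpectrum (𝓞 K)
  p : ℕ
  prime : p.Prime
  mem : (p : 𝓞 K) ∈ v.asIdeal
  c : Fin n → K
  μ : Fin n → K
  C : Finset (Fin n)
  cuspidal : ∀ i ∈ C, 1 < v.valuation K (μ i) ∧ v.valuation K (c i) < v.valuation K (μ i)
  τ : Fin n → ℍ
  near : ∀ i, i ∉ C → NearCM σ v p (τ i) (c i) (μ i)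
  compatible : ∀ i j, i ∉ C → j ∉ C → i ≠ j → ¬ Isogenous (jj (τ i)) (jj (τ j)) ∨
    (∀ s t : ℕ, v.valuation K (μ i * (p : K) ^ s) ≠ v.valuation K (μ j * (p : K) ^ t)) ∨
    Parallel p (c i) (μ i) (c j) (μ j)

attribute [instance] LocalData.field LocalData.numberField

/-- The coordinates `i` and `j` are linked at the point `(η_i : θ_i)_i` of the reduction: both are near
to the cusp, or they are parallel and `y_j = f y_i` with an integer `f`, where `y_i = η_i / θ_i`. -/
def LocalData.Linked {n : ℕ} (D : LocalData n) {k : Type} [Field k] (η θ : Fin n → k)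
    (i j : Fin n) : Prop :=
  (i ∈ D.C ∧ j ∈ D.C) ∨ (i ∉ D.C ∧ j ∉ D.C ∧ Parallel D.p (D.c i) (D.μ i) (D.c j) (D.μ j) ∧
    ∃ f : ℤ, η j / θ j = f * (η i / θ i))

/-- The coordinates in the set `S` are different from `0` and `∞` and pairwise not linked. -/
def LocalData.Free {n : ℕ} (D : LocalData n) {k : Type} [Field k] (η θ : Fin n → k)
    (S : Finset (Fin n)) : Prop :=
  (∀ i ∈ S, η i ≠ 0 ∧ θ i ≠ 0) ∧ ∀ i ∈ S, ∀ j ∈ S, i ≠ j → ¬ D.Linked η θ i j

/-- The equations of a variety `B ⊆ (P¹)^s` (forms `H_t`), and forms `N_i`, `M_i` of the same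
multidegrees. -/
structure Family {n : ℕ} (D : LocalData n) where
  s : ℕ
  T : Type
  H : T → MultiForm (𝓞 D.K) s
  N : Fin n → MultiForm (𝓞 D.K) s
  M : Fin n → MultiForm (𝓞 D.K) s
  deg_eq : ∀ i, (N i).deg = (M i).deg

/-- The point `((ξ_j : ζ_j)_j, (η_i : θ_i)_i)` over `k` is on the variety `B` and satisfies
`η_i M_i = θ_i N_i`. -/
def Family.OnGraph {n : ℕ} {D : LocalData n} (F : Family D) {k : Type} [Field k]
    (π : 𝓞 D.K →+* k) (ξ ζ : Fin F.s → k) (η θ : Fin n → k) : Prop :=
  (∀ j, ξ j ≠ 0 ∨ ζ j ≠ 0) ∧ (∀ i, η i ≠ 0 ∨ θ i ≠ 0) ∧ (∀ t, (F.H t).eval π ξ ζ = 0) ∧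
    ∀ i, η i * (F.M i).eval π ξ ζ = θ i * (F.N i).eval π ξ ζ

/-- The reduction is in linear position: at each of its points over an extension `k` of `𝓞 K / v`, for
each set `W` of algebraically independent coordinates `y_i = η_i / θ_i` there is a set `S` of
coordinates different from `0` and `∞`, pairwise not linked, with `n + |W| ≤ m + |S|`. -/
def Family.LinearPosition {n : ℕ} {D : LocalData n} (F : Family D) (m : ℕ) : Prop :=
  ∀ (k : Type) [Field k] [Algebra (𝓞 D.K ⧸ D.v.asIdeal) k] (ξ ζ : Fin F.s → k) (η θ : Fin n → k),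
    F.OnGraph (reduction D.v.asIdeal k) ξ ζ η θ →
    ∀ W : Finset (Fin n),
      AlgebraicIndependent (𝓞 D.K ⧸ D.v.asIdeal) (fun i : W => η i / θ i) →
      ∃ S : Finset (Fin n), D.Free η θ S ∧ n + W.card ≤ m + S.card

/-- All the points `(c_i + μ_i N_i(z) / M_i(z))_i` with `z ∈ B(ℂ)`, `M_i(z) ≠ 0`. -/
def Family.image {n : ℕ} {D : LocalData n} (F : Family D) : Set (Fin n → ℂ) :=
  {x | ∃ ξ ζ : Fin F.s → ℂ, (∀ j, ξ j ≠ 0 ∨ ζ j ≠ 0) ∧
    (∀ t, (F.H t).eval (D.σ.comp (algebraMap (𝓞 D.K) D.K)) ξ ζ = 0) ∧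
    ∀ i, (F.M i).eval (D.σ.comp (algebraMap (𝓞 D.K) D.K)) ξ ζ ≠ 0 ∧
      x i = D.σ (D.c i) + D.σ (D.μ i) *
        ((F.N i).eval (D.σ.comp (algebraMap (𝓞 D.K) D.K)) ξ ζ /
          (F.M i).eval (D.σ.comp (algebraMap (𝓞 D.K) D.K)) ξ ζ)}

/-- `X` has no atypical intersection: for each special subvariety `Z` of dimension `r`, the points of
`X ∩ Z` have transcendence degree at most `m + r - n`, and each irreducible closed subset of `X ∩ Z`
has dimension at most `m + r - n`. -/
def NoAtypical {n : ℕ} (X : Set (Fin n → ℂ)) (m : ℕ) : Prop :=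
  ∀ (r : ℕ) (Z : SpecialVariety n r),
    (∀ x ∈ X ∩ Z.locus, ∀ W : Finset (Fin n), AlgebraicIndependent ℚ (fun i : W => x i) →
      n + W.card ≤ m + r) ∧
    ∀ A ⊆ X ∩ Z.locus, Pool.Agent.W282.ZP.zcl A ⊆ A → (Pool.Agent.W282.ZP.idealOf A).IsPrime →
      (n : Cardinal) + Pool.Agent.W282.ZP.zdim A ≤ (m : Cardinal) + (r : Cardinal)

/-- The rational curve is in linear position: at each point `(ξ : ζ)` of the projective line over an
extension `k` of `𝓞 K / v` the coordinates `N_i / M_i` with at most one exception are different from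
`0` and `∞` and pairwise not linked, and without exception if `ξ / ζ` is transcendental. -/
def LinePosition {n : ℕ} (D : LocalData n) (N M : Fin n → MultiForm (𝓞 D.K) 1) : Prop :=
  ∀ (k : Type) [Field k] [Algebra (𝓞 D.K ⧸ D.v.asIdeal) k] (ξ ζ : Fin 1 → k),
    (ξ 0 ≠ 0 ∨ ζ 0 ≠ 0) →
    ∃ S : Finset (Fin n), n ≤ 1 + S.card ∧
      (Transcendental (𝓞 D.K ⧸ D.v.asIdeal) (ξ 0 / ζ 0) → S = Finset.univ) ∧
      D.Free (fun i => (N i).eval (reduction D.v.asIdeal k) ξ ζ)
        (fun i => (M i).eval (reduction D.v.asIdeal k) ξ ζ) S ∧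
      ∀ i, (N i).eval (reduction D.v.asIdeal k) ξ ζ ≠ 0 ∨
        (M i).eval (reduction D.v.asIdeal k) ξ ζ ≠ 0

/-- The rational curve `(c_i + μ_i N_i(t) / M_i(t))_i`, `t` a point of the projective line. -/
def rational {n : ℕ} (D : LocalData n) (N M : Fin n → MultiForm (𝓞 D.K) 1)
    (h : ∀ i, (N i).deg = (M i).deg) : Family D where
  s := 1
  T := Empty
  H := fun t => t.elim
  N := N
  M := M
  deg_eq := h

/-- the form as in the helper files -/
def toForm {R : Type} {s : ℕ} (F : MultiForm R s) :
    Pool.Agent.U854.SA.Form R (Fin s) := ⟨F.deg, F.coeff⟩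

theorem eval_scale {R k : Type} [CommRing R] [CommRing k] {s : ℕ}
    (F : MultiForm R s) (π : R →+* k) (l a b : Fin s → k) :
    F.eval π (fun i => l i * a i) (fun i => l i * b i) = F.eval π a b * ∏ i, l i ^ F.deg i :=
  Pool.Agent.U854.SA.Form.eval_scale (toForm F) π l a b

theorem map_eval {R k k' : Type} [CommRing R] [CommRing k] [CommRing k'] {s : ℕ}
    (F : MultiForm R s) (π : R →+* k) (f : k →+* k') (ξ ζ : Fin s → k) :
    f (F.eval π ξ ζ) = F.eval (f.comp π) (fun i => f (ξ i)) (fun i => f (ζ i)) :=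
  Pool.Agent.U854.SA.Form.map_eval (toForm F) π f ξ ζ

theorem main_pt {n m : ℕ} {D : LocalData n} (F : Family D) (hF : F.LinearPosition m)
    {r : ℕ} (Z : SpecialVariety n r) {x : Fin n → ℂ} (hxX : x ∈ F.image) (hxZ : x ∈ Z.locus)
    (W : Finset (Fin n)) (hW : AlgebraicIndependent ℚ (fun i : W => x i)) :
    n + W.card ≤ m + r := by
  classical
  obtain ⟨ξ, ζ, hξζ, hH, hx⟩ := hxX
  set ι := D.σ.comp (algebraMap (𝓞 D.K) D.K) with hι
  have hμ : ∀ i, D.μ i ≠ 0 := by
    intro i
    by_cases hi : i ∈ D.C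
    · intro h
      have h2 := (D.cuspidal i hi).1
      rw [h, map_zero] at h2
      exact absurd h2 (not_lt.2 zero_le)
    · exact (D.near i hi).scale_ne
  let y : Fin n → ℂ := fun i => (F.N i).eval ι ξ ζ / (F.M i).eval ι ξ ζ
  have hxy : ∀ i, x i = D.σ (D.c i) + D.σ (D.μ i) * y i := fun i => (hx i).2
  -- the coordinates `y`
  have hWy : AlgebraicIndependent ℚ (fun i : W => y i) := by
    let _ : Algebra D.K ℂ := D.σ.toAlgebra
    have hKx : AlgebraicIndependent D.K (fun i : W => x i) := hW.extendScalars D.K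
    have hKy : AlgebraicIndependent D.K (fun i : W => y i) :=
      Pool.Agent.N135.ZO.indep_affine (fun i : W => D.c i) (fun i : W => D.μ i) (fun i => hμ i)
        (fun i => by rw [hxy i]; rfl) hKx
    exact hKy.restrictScalars (algebraMap ℚ D.K).injective
  let a : Fin F.s ⊕ Fin n → ℂ := Sum.elim ξ (fun i => (F.N i).eval ι ξ ζ)
  let b : Fin F.s ⊕ Fin n → ℂ := Sum.elim ζ (fun i => (F.M i).eval ι ξ ζ)
  have hab : ∀ i, a i ≠ 0 ∨ b i ≠ 0 := by
    rintro (j | i)
    · exact hξζ j
    · exact Or.inr (hx i).1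
  let W₁ : Finset (Fin F.s ⊕ Fin n) := W.map ⟨Sum.inr, Sum.inr_injective⟩
  have hW₁ : AlgebraicIndependent ℚ (fun i : W₁ => a i / b i) := by
    have hex : ∀ i : W₁, ∃ j : W, (Sum.inr (j : Fin n) : Fin F.s ⊕ Fin n) = i := by
      rintro ⟨i, hi⟩
      obtain ⟨j, hj, hij⟩ := Finset.mem_map.1 hi
      exact ⟨⟨j, hj⟩, hij⟩
    choose f hf using hex
    have hfi : Function.Injective f := by
      intro i i' h
      apply Subtype.ext
      rw [← hf i, ← hf i', h]
    have h1 := hWy.comp f hfi
    have e : (fun i : W₁ => a i / b i) = (fun i : W => y i) ∘ f := by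
      funext i
      rw [← hf i]
      rfl
    rw [e]
    exact h1
  obtain ⟨V, hA1, hA2, -, π, k', hk, hkA, res, l, ξ', ζ', hπ, hresπ, hres, hl, hξ', hζ', hne,
    hind⟩ := Pool.Agent.U854.SA.place_res D.σ D.v D.prime D.mem hab W₁ hW₁
  have hpV : V.valuation (D.p : ℂ) < 1 := by
    have := (hA2 (D.p : 𝓞 D.K)).2 D.mem
    simpa using this
  have hpK : (D.p : D.K) ≠ 0 := by exact_mod_cast D.prime.ne_zero
  have hpC : (D.p : ℂ) ≠ 0 := by exact_mod_cast D.prime.ne_zero
  -- the values of the forms at the normalized coordinates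
  have hVal : ∀ (G : MultiForm (𝓞 D.K) F.s),
      ((G.eval π (fun j => ξ' (Sum.inl j)) (fun j => ζ' (Sum.inl j)) : V) : ℂ) =
        G.eval ι ξ ζ * ∏ j, l (Sum.inl j) ^ G.deg j := by
    intro G
    have h3 := map_eval G π V.subtype (fun j => ξ' (Sum.inl j)) (fun j => ζ' (Sum.inl j))
    have h5 : (fun j => V.subtype (ξ' (Sum.inl j))) = fun j => l (Sum.inl j) * ξ j :=
      funext fun j => hξ' (Sum.inl j)
    have h6 : (fun j => V.subtype (ζ' (Sum.inl j))) = fun j => l (Sum.inl j) * ζ j :=
      funext fun j => hζ' (Sum.inl j)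
    rw [hπ, h5, h6, eval_scale] at h3
    exact h3
  have hRes : ∀ (G : MultiForm (𝓞 D.K) F.s),
      res (G.eval π (fun j => ξ' (Sum.inl j)) (fun j => ζ' (Sum.inl j))) =
        G.eval (reduction D.v.asIdeal k') (fun j => res (ξ' (Sum.inl j)))
          (fun j => res (ζ' (Sum.inl j))) := by
    intro G
    rw [reduction, hresπ]
    exact map_eval G π res _ _
  have hgraph : F.OnGraph (reduction D.v.asIdeal k') (fun j => res (ξ' (Sum.inl j)))
      (fun j => res (ζ' (Sum.inl j))) (fun i => res (ξ' (Sum.inr i)))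
      (fun i => res (ζ' (Sum.inr i))) := by
    refine ⟨fun j => hne (Sum.inl j), fun i => hne (Sum.inr i), fun t => ?_, fun i => ?_⟩
    · rw [← hRes]
      have h2 : (F.H t).eval π (fun j => ξ' (Sum.inl j)) (fun j => ζ' (Sum.inl j)) = 0 := by
        apply Subtype.ext
        rw [hVal, hH t, zero_mul]
        rfl
      rw [h2, map_zero]
    · rw [← hRes, ← hRes, ← map_mul, ← map_mul]
      congr 1
      apply Subtype.ext
      push_cast
      rw [hVal, hVal, F.deg_eq i]
      have e1 : (ξ' (Sum.inr i) : ℂ) = l (Sum.inr i) * (F.N i).eval ι ξ ζ := hξ' (Sum.inr i)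
      have e2 : (ζ' (Sum.inr i) : ℂ) = l (Sum.inr i) * (F.M i).eval ι ξ ζ := hζ' (Sum.inr i)
      rw [e1, e2]
      ring
  have hind' : AlgebraicIndependent (𝓞 D.K ⧸ D.v.asIdeal)
      (fun i : W => res (ξ' (Sum.inr (i : Fin n))) / res (ζ' (Sum.inr (i : Fin n)))) :=
    hind.comp (fun i : W => (⟨Sum.inr (i : Fin n), Finset.mem_map.2 ⟨i, i.2, rfl⟩⟩ : W₁))
      (fun i i' h => Subtype.ext (Sum.inr_injective (congrArg Subtype.val h)))
  obtain ⟨S, ⟨hS1, hS2⟩, hcount⟩ := hF k' _ _ _ _ hgraph W hind'
  have hunit : ∀ z : V, res z ≠ 0 → V.valuation (z : ℂ) = 1 := by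
    intro z hz
    refine le_antisymm ((V.valuation_le_one_iff _).2 z.2) (not_lt.1 fun h => ?_)
    exact hz ((hres z).2 h)
  have hyq : ∀ i, y i = (ξ' (Sum.inr i) : ℂ) / (ζ' (Sum.inr i) : ℂ) := by
    intro i
    have e1 : (ξ' (Sum.inr i) : ℂ) = l (Sum.inr i) * (F.N i).eval ι ξ ζ := hξ' (Sum.inr i)
    have e2 : (ζ' (Sum.inr i) : ℂ) = l (Sum.inr i) * (F.M i).eval ι ξ ζ := hζ' (Sum.inr i)
    rw [e1, e2, mul_div_mul_left _ _ (hl _)]
  have hy1 : ∀ i ∈ S, V.valuation (y i) = 1 := by
    intro i hi
    rw [hyq, map_div₀, hunit _ (hS1 i hi).1, hunit _ (hS1 i hi).2, div_one]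
  -- distances
  have hdist : ∀ i ∈ S, i ∉ D.C → V.valuation (x i - jj (D.τ i)) = V.valuation (D.σ (D.μ i)) := by
    intro i hi hiC
    rw [(D.near i hiC).j_eq, hxy i, add_sub_cancel_left, map_mul, hy1 i hi, mul_one]
  let Z' : SpecialDatum n r := ⟨Z.cls, Z.surj, Z.mat, Z.det_pos, Z.cm, Z.isCM⟩
  have hxZ' : x ∈ Z'.locus := hxZ
  have hpair := Pool.Agent.U854.CL.class_pair D.prime hpV D.C D.τ (fun i hi => (D.near i hi).odd)
    (fun i hi => (D.near i hi).cm) (fun i hi => (D.near i hi).ordinary)
    (fun i hi => by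
      rw [(D.near i hi).j_eq]
      exact Pool.Agent.N135.ZO.val_one_of hA1 hA2 (D.near i hi).not_zero)
    (fun i hi => by
      have e : D.σ (D.c i - 1728) = D.σ (D.c i) - 1728 := by
        rw [map_sub]
        congr 1
        exact map_ofNat D.σ 1728
      rw [(D.near i hi).j_eq, ← e]
      exact Pool.Agent.N135.ZO.val_one_of hA1 hA2 (D.near i hi).not_1728)
    Z' hxZ' S
    (fun i hi hiC => by
      obtain ⟨h1, h2⟩ := D.cuspidal i hiC
      have e1 : V.valuation (D.σ (D.c i)) < V.valuation (D.σ (D.μ i)) :=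
        Pool.Agent.N135.ZO.val_pow_lt hA1 hA2 (hμ i) h2
      have e2 : V.valuation (D.σ (D.μ i) * y i) = V.valuation (D.σ (D.μ i)) := by
        rw [map_mul, hy1 i hi, mul_one]
      have e3 : V.valuation (x i) = V.valuation (D.σ (D.μ i)) := by
        rw [hxy i, Valuation.map_add_eq_of_lt_right _ (by rw [e2]; exact e1), e2]
      rw [e3]
      have h4 := Pool.Agent.N135.ZO.val_pow_lt hA1 hA2 (x := (1 : D.K)) (hμ i)
        (by rw [map_one]; exact h1)
      rwa [map_one, map_one] at h4)
    (fun i hi hiC => by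
      refine ⟨fun h => ?_, ?_⟩
      · have h1 := hdist i hi hiC
        rw [sub_eq_zero.2 h, map_zero] at h1
        exact (Valuation.ne_zero_iff _).2 ((map_ne_zero D.σ).2 (hμ i)) h1.symm
      · rw [hdist i hi hiC]
        have h3 := Pool.Agent.N135.ZO.val_pow_lt hA1 hA2 (x := D.μ i ^ (D.p - 1))
          (y := (D.p : D.K)) hpK (by
            rw [map_pow]
            exact (D.near i hiC).scale_lt)
        rw [map_pow, map_pow, map_natCast] at h3
        exact h3)
  have hcard : S.card ≤ r := by
    refine Pool.Agent.U854.CL.card_le_classes Z.cls S (fun i hi => (hpair i hi).1) ?_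
    intro i hi j hj hij hcls
    apply hS2 i hi j hj hij
    rcases (hpair i hi).2 j hj hcls with h | ⟨hiC, hjC, hiso, ⟨s, t, hst⟩, hRL⟩
    · exact Or.inl h
    · right
      refine ⟨hiC, hjC, ?_⟩
      rcases D.compatible i j hiC hjC hij with h | h | h
      · exact absurd hiso h
      · exfalso
        rw [hdist i hi hiC, hdist j hj hjC] at hst
        refine Pool.Agent.N135.ZO.val_ne hA1 hA2 (x := D.μ i * (D.p : D.K) ^ s)
          (y := D.μ j * (D.p : D.K) ^ t) (mul_ne_zero (hμ i) (pow_ne_zero _ hpK))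
          (mul_ne_zero (hμ j) (pow_ne_zero _ hpK)) (h s t) ?_
        rw [map_mul, map_mul, map_mul, map_mul, map_pow, map_pow, map_pow, map_pow, map_natCast]
        exact hst
      · refine ⟨h, ?_⟩
        obtain ⟨hcc, s', t', hμμ⟩ := h
        have hjj : jj (D.τ i) = jj (D.τ j) := by
          rw [(D.near i hiC).j_eq, (D.near j hjC).j_eq, hcc]
        have hq := hRL hjj
        have hμiC : D.σ (D.μ i) ≠ 0 := (map_ne_zero D.σ).2 (hμ i)
        have hyi0 : y i ≠ 0 := by
          rw [← V.valuation.ne_zero_iff, hy1 i hi]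
          exact one_ne_zero
        have hμμC : D.σ (D.μ i) * (D.p : ℂ) ^ s' = D.σ (D.μ j) * (D.p : ℂ) ^ t' := by
          have := congrArg D.σ hμμ
          rwa [map_mul, map_mul, map_pow, map_pow, map_natCast] at this
        have e1 : y j / y i = (x j - jj (D.τ j)) / (x i - jj (D.τ i)) *
            ((((D.p : ℚ) ^ t' / (D.p : ℚ) ^ s' : ℚ)) : ℂ) := by
          rw [(D.near i hiC).j_eq, (D.near j hjC).j_eq, hxy i, hxy j, add_sub_cancel_left,
            add_sub_cancel_left]
          push_cast
          rw [div_mul_div_comm, div_eq_div_iff hyi0 (mul_ne_zero (mul_ne_zero hμiC hyi0)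
            (pow_ne_zero _ hpC))]
          linear_combination y j * y i * hμμC
        have hpQ : (D.p : ℚ) ≠ 0 := by exact_mod_cast D.prime.ne_zero
        have hRL2 : Pool.Agent.U854.CL.RL V (y j / y i) := by
          rw [e1]
          exact hq.mul (Pool.Agent.U854.CL.rl_rat (div_ne_zero (pow_ne_zero _ hpQ)
            (pow_ne_zero _ hpQ)))
        obtain ⟨f, hf⟩ := hRL2.int D.prime hpV (by rw [map_div₀, hy1 i hi, hy1 j hj, div_one])
        refine ⟨f, ?_⟩
        have hζi : ((ζ' (Sum.inr i) : V) : ℂ) ≠ 0 := by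
          rw [← V.valuation.ne_zero_iff, hunit _ (hS1 i hi).2]
          exact one_ne_zero
        have hζj : ((ζ' (Sum.inr j) : V) : ℂ) ≠ 0 := by
          rw [← V.valuation.ne_zero_iff, hunit _ (hS1 j hj).2]
          exact one_ne_zero
        have hξi : ((ξ' (Sum.inr i) : V) : ℂ) ≠ 0 := by
          rw [← V.valuation.ne_zero_iff, hunit _ (hS1 i hi).1]
          exact one_ne_zero
        have e2 : ((ξ' (Sum.inr j) * ζ' (Sum.inr i) - f * ξ' (Sum.inr i) * ζ' (Sum.inr j) : V) : ℂ) =
            (y j / y i - f) * (((ξ' (Sum.inr i) : V) : ℂ) * ((ζ' (Sum.inr j) : V) : ℂ)) := by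
          rw [hyq i, hyq j]
          push_cast
          field_simp
        have h0 : res (ξ' (Sum.inr j) * ζ' (Sum.inr i) - f * ξ' (Sum.inr i) * ζ' (Sum.inr j)) = 0 := by
          rw [hres, e2, map_mul, map_mul, hunit _ (hS1 i hi).1, hunit _ (hS1 j hj).2, mul_one,
            mul_one]
          exact hf
        rw [map_sub, map_mul, map_mul, map_mul, map_intCast] at h0
        show res (ξ' (Sum.inr j)) / res (ζ' (Sum.inr j)) =
          f * (res (ξ' (Sum.inr i)) / res (ζ' (Sum.inr i)))
        have g1 := (hS1 i hi).2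
        have g2 := (hS1 j hj).2
        rw [← mul_div_assoc, div_eq_div_iff g2 g1]
        linear_combination h0
  omega

theorem main {n m : ℕ} {D : LocalData n} (F : Family D) (hF : F.LinearPosition m)
    (X : Set (Fin n → ℂ)) (hX : X ⊆ F.image) : NoAtypical X m := by
  have hpt : ∀ (r : ℕ) (Z : SpecialVariety n r), ∀ x ∈ X ∩ Z.locus, ∀ W : Finset (Fin n),
      AlgebraicIndependent ℚ (fun i : W => x i) → n + W.card ≤ m + r :=
    fun r Z x hx W hW => main_pt F hF Z (hX hx.1) hx.2 W hW
  intro r Z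
  refine ⟨hpt r Z, ?_⟩
  intro A hA hcl hprime
  obtain ⟨x, hxA, W, hW, hdim⟩ := Pool.Agent.W466.ZC.generic_dim ℚ A hprime hcl
  have h := hpt r Z x (hA hxA) W hW
  calc (n : Cardinal) + Pool.Agent.W282.ZP.zdim A ≤ (n : Cardinal) + (W.card : Cardinal) := by
        gcongr
    _ = ((n + W.card : ℕ) : Cardinal) := by push_cast; rfl
    _ ≤ ((m + r : ℕ) : Cardinal) := by exact_mod_cast h
    _ = (m : Cardinal) + (r : Cardinal) := by push_cast; rfl

theorem eval_mem {R : Type} [CommRing R] {v : Ideal R} {k : Type} [Field k] [Algebra (R ⧸ v) k]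
    {s : ℕ} (G : MultiForm R s) (A : Subalgebra (R ⧸ v) k) (u w : Fin s → k)
    (hu : ∀ i, u i ∈ A) (hw : ∀ i, w i ∈ A) : G.eval (reduction v k) u w ∈ A := by
  unfold MultiForm.eval
  refine A.sum_mem fun e _ => A.mul_mem ?_ (A.prod_mem fun i _ =>
    A.mul_mem (A.pow_mem (hu i) _) (A.pow_mem (hw i) _))
  exact A.algebraMap_mem _

theorem line_linear {n : ℕ} (D : LocalData n) (N M : Fin n → MultiForm (𝓞 D.K) 1)
    (h : ∀ i, (N i).deg = (M i).deg) (hL : LinePosition D N M) :
    (rational D N M h).LinearPosition 1 := by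
  classical
  intro k _ _ ξ ζ η θ hgr W hW
  obtain ⟨h1, h2, -, h4⟩ := hgr
  change Fin 1 → k at ξ ζ
  change ∀ j : Fin 1, ξ j ≠ 0 ∨ ζ j ≠ 0 at h1
  change ∀ i, η i * (M i).eval (reduction D.v.asIdeal k) ξ ζ =
    θ i * (N i).eval (reduction D.v.asIdeal k) ξ ζ at h4
  obtain ⟨S, hc, htr, ⟨hS1, hS2⟩, hNM⟩ := hL k ξ ζ (h1 0)
  have hquot : ∀ i, η i / θ i = (N i).eval (reduction D.v.asIdeal k) ξ ζ /
      (M i).eval (reduction D.v.asIdeal k) ξ ζ := by
    intro i
    by_cases hM : (M i).eval (reduction D.v.asIdeal k) ξ ζ = 0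
    · have hN := (hNM i).resolve_right (fun h => h hM)
      have h5 := h4 i
      rw [hM, mul_zero] at h5
      have hθ := (mul_eq_zero.1 h5.symm).resolve_right hN
      rw [hM, hθ, div_zero, div_zero]
    · have hθ : θ i ≠ 0 := by
        intro hθ
        have h5 := h4 i
        rw [hθ, zero_mul] at h5
        rcases h2 i with h6 | h6
        · exact (mul_ne_zero h6 hM) h5
        · exact h6 hθ
      rw [div_eq_div_iff hθ hM]
      linear_combination h4 i
  have hfree : D.Free η θ S := by
    refine ⟨fun i hi => ?_, fun i hi j hj hij hlk => ?_⟩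
    · obtain ⟨hN, hM⟩ := hS1 i hi
      have hθ : θ i ≠ 0 := by
        intro hθ
        have h5 := h4 i
        rw [hθ, zero_mul] at h5
        rcases h2 i with h6 | h6
        · exact (mul_ne_zero h6 hM) h5
        · exact h6 hθ
      refine ⟨fun hη => ?_, hθ⟩
      have h5 := h4 i
      rw [hη, zero_mul] at h5
      exact (mul_ne_zero hθ hN) h5.symm
    · refine hS2 i hi j hj hij ?_
      unfold LocalData.Linked at hlk ⊢
      rw [hquot, hquot] at hlk
      exact hlk
  have hprime : D.v.asIdeal.IsPrime := D.v.isPrime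
  have hfaith : FaithfulSMul (𝓞 D.K ⧸ D.v.asIdeal) k := by
    rw [faithfulSMul_iff_algebraMap_injective]
    have hmax : D.v.asIdeal.IsMaximal := D.v.isMaximal
    let _ := Ideal.Quotient.field D.v.asIdeal
    exact (algebraMap (𝓞 D.K ⧸ D.v.asIdeal) k).injective
  have hcard := Pool.Agent.U854.CL.line_card (F := 𝓞 D.K ⧸ D.v.asIdeal) W
    (fun i => η i / θ i) (ξ 0 / ζ 0) (fun i _ => by
      set A := Algebra.adjoin (𝓞 D.K ⧸ D.v.asIdeal) {ξ 0 / ζ 0} with hA
      have htA : ξ 0 / ζ 0 ∈ A := Algebra.subset_adjoin rfl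
      by_cases hζ : ζ 0 = 0
      · have hξ : ξ 0 ≠ 0 := (h1 0).resolve_right (fun h => h hζ)
        refine ⟨(N i).eval (reduction D.v.asIdeal k) (fun _ => 1) (fun _ => 0),
          eval_mem _ A _ _ (fun _ => A.one_mem) (fun _ => A.zero_mem),
          (M i).eval (reduction D.v.asIdeal k) (fun _ => 1) (fun _ => 0),
          eval_mem _ A _ _ (fun _ => A.one_mem) (fun _ => A.zero_mem), ?_⟩
        have e1 : ξ = fun j => (fun _ : Fin 1 => ξ 0) j * (fun _ : Fin 1 => (1 : k)) j := by
          funext j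
          rw [Subsingleton.elim j 0, mul_one]
        have e2 : ζ = fun j => (fun _ : Fin 1 => ξ 0) j * (fun _ : Fin 1 => (0 : k)) j := by
          funext j
          rw [Subsingleton.elim j 0, mul_zero, hζ]
        have hsc : ∀ G : MultiForm (𝓞 D.K) 1, G.eval (reduction D.v.asIdeal k) ξ ζ =
            G.eval (reduction D.v.asIdeal k) (fun _ => 1) (fun _ => 0) *
              ∏ i, (fun _ : Fin 1 => ξ 0) i ^ G.deg i := by
          intro G
          rw [← eval_scale, ← e1, ← e2]
        show η i / θ i = _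
        rw [hquot, hsc, hsc, h i]
        exact mul_div_mul_right _ _ (Finset.prod_ne_zero_iff.2 fun j _ => pow_ne_zero _ hξ)
      · refine ⟨(N i).eval (reduction D.v.asIdeal k) (fun _ => ξ 0 / ζ 0) (fun _ => 1),
          eval_mem _ A _ _ (fun _ => htA) (fun _ => A.one_mem),
          (M i).eval (reduction D.v.asIdeal k) (fun _ => ξ 0 / ζ 0) (fun _ => 1),
          eval_mem _ A _ _ (fun _ => htA) (fun _ => A.one_mem), ?_⟩
        have e1 : ξ = fun j => (fun _ : Fin 1 => ζ 0) j * (fun _ : Fin 1 => ξ 0 / ζ 0) j := by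
          funext j
          rw [Subsingleton.elim j 0, mul_div_cancel₀ _ hζ]
        have e2 : ζ = fun j => (fun _ : Fin 1 => ζ 0) j * (fun _ : Fin 1 => (1 : k)) j := by
          funext j
          rw [Subsingleton.elim j 0, mul_one]
        have hsc : ∀ G : MultiForm (𝓞 D.K) 1, G.eval (reduction D.v.asIdeal k) ξ ζ =
            G.eval (reduction D.v.asIdeal k) (fun _ => ξ 0 / ζ 0) (fun _ => 1) *
              ∏ i, (fun _ : Fin 1 => ζ 0) i ^ G.deg i := by
          intro G
          rw [← eval_scale, ← e1, ← e2]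
        show η i / θ i = _
        rw [hquot, hsc, hsc, h i]
        exact mul_div_mul_right _ _ (Finset.prod_ne_zero_iff.2 fun j _ => pow_ne_zero _ hζ)) hW
  refine ⟨S, hfree, ?_⟩
  by_cases ht : IsAlgebraic (𝓞 D.K ⧸ D.v.asIdeal) (ξ 0 / ζ 0)
  · have := hcard.2 ht
    omega
  · have h5 := htr ht
    have h6 := hcard.1
    rw [h5, Finset.card_univ, Fintype.card_fin]
    omega

/-- **Zilber-Pink for subvarieties of `Y(1)^n` near to a single ordinary CM point.** -/
theorem result :
    -- the local law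
    (∀ (V : ValuationSubring ℂ) (p : ℕ) (τ : ℍ) (x x' : ℂ), p.Prime → p ≠ 2 →
      V.valuation (p : ℂ) < 1 → IsCM τ → OrdinaryAt p τ → V.valuation (jj τ) = 1 →
      V.valuation (jj τ - 1728) = 1 → Isogenous x x' → x ≠ jj τ → x' ≠ jj τ →
      V.valuation (x - jj τ) ^ (p - 1) < V.valuation (p : ℂ) →
      V.valuation (x' - jj τ) ^ (p - 1) < V.valuation (p : ℂ) →
      ∃ r : ℚ, V.valuation ((x' - jj τ) / (x - jj τ) - r) < V.valuation (r : ℂ)) ∧
    -- the criterion
    (∀ (n m : ℕ) (D : LocalData n) (F : Family D), F.LinearPosition m →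
      ∀ X ⊆ F.image, NoAtypical X m) ∧
    -- rational curves
    (∀ (n : ℕ) (D : LocalData n) (N M : Fin n → MultiForm (𝓞 D.K) 1)
      (h : ∀ i, (N i).deg = (M i).deg), LinePosition D N M →
      NoAtypical (rational D N M h).image 1) := by
  refine ⟨?_, fun n m D F hF X hX => main F hF X hX, fun n D N M h hL =>
    main _ (line_linear D N M h hL) _ subset_rfl⟩
  rintro V p τ x x' hp hp2 hpV hcm hord h0 h1 ⟨g, w, w', hg, hrel, hw, hw'⟩ hx hx' hlt hlt'
  exact (Pool.Agent.U854.CL.two_near hp hp2 hpV hcm hcm hord hord h0 h1 h0 h1 hx hx' hlt hlt' hw hw'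
    hg hrel).2.2 rfl

end Pool.Agent.Results.MP_d83ecd_ag.FirstOrder
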