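import Pool.Agent.U854.ZM.Moeb

/-!
# MP_d83ecd_ag: Zilber-Pink for subvarieties of `Y(1)^n` with mixed local behaviour at finitely many
places

`Y(1)^n` is identified with `ℂ^n` by the elliptic modular function `jj = j = E₄³ / Δ`. A special
subvariety of dimension `r` is given by a `SpecialVariety n r`: the constant coordinates are CM
points, the coordinates of class `l` are `j (g_i z_l)` with `z_1, …, z_r` free in the upper half plane
and integral matrices `g_i` of positive determinant.

**Models.** Let `K` be a number field, `σ : K → ℂ`, `v` a prime of `K` above the prime number `p`, and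
let `V ⊆ (P¹)^n` be a subvariety of any dimension given by multihomogeneous forms over `𝓞 K` with
reduction modulo `v` in general position (`GeneralPosition v F m`): on the reduction, the locus where
`a` of the coordinates are in `{0, ∞}` has dimension at most `m - a`. A set `X ⊆ Y(1)^n` has the model
`c + μ V` at the place if every point of `X` is of the form `(c_i + μ_i y_i)_i` with `y ∈ V ∩ ℂ^n`; here
`c_i`, `μ_i` are elements of `K`, and each coordinate has one of two local types:

* cuspidal (`i ∈ C`): `v(μ_i)` is a pole of order `e_i > 0` and `c_i` is smaller than `μ_i` at `v`, so the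
  `i`-th coordinate of `X` is near to the cusp unless `y_i` reduces to `0`;
* ordinary (`i ∉ C`, `OrdinaryDisc`): `c_i = j(τ_i)` is a CM point, ordinary at `p ≠ 2` and not
  congruent to `0` or `1728`, and `μ_i ≠ 0` vanishes at `v`, `(p - 1) p^k v(μ_i) ≠ v(p)` for all `k`; so
  the `i`-th coordinate of `X` is near to this CM point unless `y_i` reduces to `∞`. The CM points of
  different ordinary coordinates are not isogenous.

(`Place X m C e` is such a model; the field `K` may depend on it.)

**Theorem** (`result`). Let `X ⊆ Y(1)^n` have models at places `l ∈ L` with the sets `C_l` of cuspidal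
coordinates and the exponents `e_{l i}`.
1. Suppose that for each choice of a pair `i_l < j_l` of cuspidal coordinates at every place `l` there
   are two places `l ≠ l'` with the same chosen pair `(i, j)` for which `e_{l i} e_{l j} e_{l' i} e_{l' j}`
   is not a square. Then `X` has no atypical intersection with special subvarieties: for each special
   `Z` of dimension `r` every irreducible closed subset of `X ∩ Z` has dimension at most `r + m - n`, and
   the points of `X ∩ Z` have transcendence degree at most `r + m - n`.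
2. In particular *one* place suffices if at most one of the coordinates is cuspidal there.
3. In particular this holds if the number of the places is larger than the number of the pairs `i < j`
   which are both cuspidal at some place, and if the exponents are independent.
4. In particular all the curves `{(c_i + μ_i (t - b_i) / (t - a_i))_i : t ∈ ℂ}` in `Y(1)^n` have no
   atypical intersection, if at one place `v` at most one coordinate is cuspidal and the others are
   ordinary, and the `2 n` elements `a_i`, `b_i` of `𝓞 K` are pairwise incongruent modulo `v`.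

The starting results treat the two extreme cases: all coordinates cuspidal at all of
`n (n - 1) / 2 + 1` places (`LocalCriterion`), and one place at which all coordinates are ordinary
(`OrdinaryPlace`).

Proof: over every place there is a valuation ring of `ℂ` which extends the Gauss valuation of the
algebraically independent coordinates of the point. If the point is atypical, two coordinates whose
`y`-values are units belong to the same class, or one of them is constant. Near an ordinary CM point
there is no other CM point at these distances, and no point isogenous to a point near to the other CM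
points (starting library `Pool.Agent.N135.ZO`); a point near to the cusp is not isogenous to a point
with integral `j`, and if both are near to the cusp then the product of the exponents is the degree of
the isogeny up to squares (starting library `Pool.Agent.W282.ZP`).
-/

set_option autoImplicit false

namespace Pool.Agent.Results.MP_d83ecd_ag.MixedPlaces

open UpperHalfPlane H294ZP NumberField IsDedekindDomain

/-- A special subvariety of dimension `r` of `Y(1)^n`: a map `cls` from the coordinates onto `r`
classes (`none` for the constant coordinates), an integral matrix of positive determinant for each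
coordinate, and a CM point for each coordinate. -/
structure SpecialVariety (n r : ℕ) where
  cls : Fin n → Option (Fin r)
  surj : ∀ l : Fin r, ∃ i, cls i = some l
  mat : Fin n → Matrix (Fin 2) (Fin 2) ℤ
  det_pos : ∀ i, 0 < (mat i).det
  cm : Fin n → ℍ
  isCM : ∀ i, IsCM (cm i)

/-- The points of a special subvariety: the constant coordinates are the singular moduli
`j (cm i)`, the other coordinates are `j (g_i z_l)`, where `l` is the class of `i`, `g_i = mat i` and
`z_1, …, z_r` are free parameters in the upper half plane. -/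
def SpecialVariety.locus {n r : ℕ} (Z : SpecialVariety n r) : Set (Fin n → ℂ) :=
  {x | ∃ z : Fin r → ℍ, ∀ i, (Z.cls i = none → x i = jj (Z.cm i)) ∧
    ∀ l, Z.cls i = some l → ∃ w : ℍ,
      (w : ℂ) * (Z.mat i 1 0 * z l + Z.mat i 1 1) = Z.mat i 0 0 * z l + Z.mat i 0 1 ∧ x i = jj w}

/-- The CM point `τ` is ordinary at `p`: `τ` is fixed by an integral matrix `M` whose determinant is
a power of `p` and whose trace is prime to `p` (`p` splits in the field `ℚ(τ)` and does not divide
the conductor). -/
def OrdinaryAt (p : ℕ) (τ : ℍ) : Prop :=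
  ∃ (e : ℕ) (M : Matrix (Fin 2) (Fin 2) ℤ), 0 < e ∧ M.det = (p : ℤ) ^ e ∧ ¬ (p : ℤ) ∣ M.trace ∧
    (τ : ℂ) * (M 1 0 * τ + M 1 1) = M 0 0 * τ + M 0 1

/-- `x` and `x'` are the `j`-invariants of isogenous elliptic curves. -/
def Isogenous (x x' : ℂ) : Prop :=
  ∃ (g : Matrix (Fin 2) (Fin 2) ℤ) (τ τ' : ℍ), 0 < g.det ∧
    (τ' : ℂ) * (g 1 0 * τ + g 1 1) = g 0 0 * τ + g 0 1 ∧ jj τ = x ∧ jj τ' = x'

/-- A form with coefficients in `R` which is homogeneous of degree `deg i` in `(ξ i, ζ i)` for each
`i`: the coefficients of the monomials `∏ ξ_i ^ (e_i) ζ_i ^ (deg i - e_i)`. -/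
structure MultiForm (R : Type) (n : ℕ) where
  deg : Fin n → ℕ
  coeff : ((i : Fin n) → Fin (deg i + 1)) → R

/-- The value of the form at a point over `k`, for a ring homomorphism `R → k`. -/
def MultiForm.eval {R k : Type} [CommRing R] [CommRing k] {n : ℕ} (F : MultiForm R n) (π : R →+* k)
    (ξ ζ : Fin n → k) : k :=
  ∑ e, π (F.coeff e) * ∏ i, ξ i ^ (e i : ℕ) * ζ i ^ (F.deg i - e i)

/-- The subvariety of `(P¹)^n` given by the forms has reduction modulo `v` in general position: for
each point `(ξ_i : ζ_i)_i` of the reduction over an extension field `k` of `𝓞 K / v`, the number of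
coordinates in `{0, ∞}` plus the number of any family of algebraically independent coordinates is
at most `m`. -/
def GeneralPosition {K : Type} [Field K] [NumberField K] (v : HeightOneSpectrum (𝓞 K)) {n : ℕ}
    {T : Type} (F : T → MultiForm (𝓞 K) n) (m : ℕ) : Prop :=
  ∀ (k : Type) [Field k] [Algebra (𝓞 K ⧸ v.asIdeal) k] (ξ ζ : Fin n → k),
    (∀ i, ξ i ≠ 0 ∨ ζ i ≠ 0) →
    (∀ t, (F t).eval
      ((algebraMap (𝓞 K ⧸ v.asIdeal) k).comp (Ideal.Quotient.mk v.asIdeal)) ξ ζ = 0) →
    ∀ W : Finset (Fin n), AlgebraicIndependent (𝓞 K ⧸ v.asIdeal) (fun i : W => ξ i / ζ i) →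
      {i | ξ i = 0 ∨ ζ i = 0}.ncard + W.card ≤ m

/-- `c + μ V`: the set of all `(c_i + μ_i y_i)_i`, where `y` is a point of `ℂ^n` at which all the forms
vanish. -/
def image {K : Type} [Field K] [NumberField K] (σ : K →+* ℂ) {n : ℕ} (c μ : Fin n → K) {T : Type}
    (F : T → MultiForm (𝓞 K) n) : Set (Fin n → ℂ) :=
  {x | ∃ y : Fin n → ℂ, (∀ t, (F t).eval (σ.comp (algebraMap (𝓞 K) K)) y (fun _ => 1) = 0) ∧
    ∀ i, x i = σ (c i) + σ (μ i) * y i}

/-- The ordinary type: `c = j(τ)` is a CM point, ordinary at the odd prime number `p` under `v` and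
not congruent to `0` or `1728`, and `μ ≠ 0`, `v(μ) > 0`, `(p - 1) p^k v(μ) ≠ v(p)` for all `k ≥ 0`. -/
structure OrdinaryDisc {K : Type} [Field K] [NumberField K] (σ : K →+* ℂ)
    (v : HeightOneSpectrum (𝓞 K)) (p : ℕ) (τ : ℍ) (c μ : K) : Prop where
  odd : p ≠ 2
  j_eq : jj τ = σ c
  cm : IsCM τ
  ordinary : OrdinaryAt p τ
  not_zero : v.valuation K c = 1
  not_1728 : v.valuation K (c - 1728) = 1
  scale_ne : μ ≠ 0
  scale_lt : v.valuation K μ < 1
  radius : ∀ k : ℕ, v.valuation K μ ^ ((p - 1) * p ^ k) ≠ v.valuation K p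

/-- A place `v` of a number field `K` embedded into `ℂ`, and for each coordinate a centre `c_i` and a
scale `μ_i` in `K`. The coordinates `i ∈ C` are cuspidal: `μ_i` has a pole of order `e_i > 0` at `v`,
and `c_i` is smaller than `μ_i`. The other ones are ordinary, and their CM points are pairwise not
isogenous. -/
structure LocalData {n : ℕ} (C : Finset (Fin n)) (e : Fin n → ℕ) where
  K : Type
  [field : Field K]
  [numberField : NumberField K]
  σ : K →+* ℂ
  v : HeightOneSpectrum (𝓞 K)
  p : ℕ
  prime : p.Prime
  mem : (p : 𝓞 K) ∈ v.asIdeal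
  c : Fin n → K
  μ : Fin n → K
  cuspidal : ∀ i ∈ C, 0 < e i ∧ v.valuation K (μ i) = WithZero.exp (e i : ℤ) ∧
    v.valuation K (c i) < v.valuation K (μ i)
  τ : Fin n → ℍ
  ordinary : ∀ i, i ∉ C → OrdinaryDisc σ v p (τ i) (c i) (μ i)
  not_isogenous : ∀ i j, i ∉ C → j ∉ C → i ≠ j → ¬ Isogenous (jj (τ i)) (jj (τ j))

attribute [instance] LocalData.field LocalData.numberField

/-- A model of `X` at a place: local data and forms whose reduction is in general position, such
that `X ⊆ c + μ V`. -/
structure Place {n : ℕ} (X : Set (Fin n → ℂ)) (m : ℕ) (C : Finset (Fin n)) (e : Fin n → ℕ)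
    extends LocalData C e where
  T : Type
  F : T → MultiForm (𝓞 K) n
  general : GeneralPosition v F m
  model : X ⊆ image σ c μ F

/-- `X` has no atypical intersection: for each special subvariety `Z` of dimension `r`, the points of
`X ∩ Z` have transcendence degree at most `m + r - n`, and each irreducible closed subset of `X ∩ Z`
has dimension at most `m + r - n`. -/
def NoAtypical {n : ℕ} (X : Set (Fin n → ℂ)) (m : ℕ) : Prop :=
  ∀ (r : ℕ) (Z : SpecialVariety n r),
    (∀ x ∈ X ∩ Z.locus, ∀ W : Finset (Fin n), AlgebraicIndependent ℚ (fun i : W => x i) →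
      n + W.card ≤ m + r) ∧
    ∀ A ⊆ X ∩ Z.locus, Pool.Agent.W282.ZP.zcl A ⊆ A → (Pool.Agent.W282.ZP.idealOf A).IsPrime →
      (n : Cardinal) + Pool.Agent.W282.ZP.zdim A ≤ (m : Cardinal) + (r : Cardinal)

/-- The places separate the cuspidal coordinates: for each choice of a pair of cuspidal coordinates
at every place there are two places with the same pair `(i, j)` and
`e_{l i} e_{l j} e_{l' i} e_{l' j}` not a square. -/
def Separating {n : ℕ} {L : Type} (C : L → Finset (Fin n)) (e : L → Fin n → ℕ) : Prop :=
  ∀ q : L → Fin n × Fin n, (∀ l, (q l).1 < (q l).2 ∧ (q l).1 ∈ C l ∧ (q l).2 ∈ C l) →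
    ∃ l l', l ≠ l' ∧ q l = q l' ∧
      ¬ IsSquare (e l (q l).1 * e l (q l).2 * (e l' (q l).1 * e l' (q l).2))

/-- The curve `{(c_i + μ_i (t - b_i) / (t - a_i))_i : t ∈ ℂ}`. -/
def moebiusCurve {n : ℕ} {C : Finset (Fin n)} {e : Fin n → ℕ} (D : LocalData C e)
    (a b : Fin n → 𝓞 D.K) : Set (Fin n → ℂ) :=
  {x | ∃ t : ℂ, ∀ i, t ≠ D.σ (a i) ∧
    x i = D.σ (D.c i) + D.σ (D.μ i) * ((t - D.σ (b i)) / (t - D.σ (a i)))}

theorem main {n m : ℕ} (X : Set (Fin n → ℂ)) {L : Type} (C : L → Finset (Fin n))
    (e : L → Fin n → ℕ) (P : ∀ l, Place X m (C l) (e l)) (hsep : Separating C e) :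
    NoAtypical X m := by
  classical
  have hpt : ∀ (r : ℕ) (Z : SpecialVariety n r), ∀ x ∈ X ∩ Z.locus, ∀ W : Finset (Fin n),
      AlgebraicIndependent ℚ (fun i : W => x i) → n + W.card ≤ m + r := by
    rintro r Z x ⟨hxX, hxZ⟩ W hW
    by_contra hcon
    push Not at hcon
    let Z' : SpecialDatum n r := ⟨Z.cls, Z.surj, Z.mat, Z.det_pos, Z.cm, Z.isCM⟩
    have hxZ' : x ∈ Z'.locus := hxZ
    have key : ∀ l, ∃ q : Fin n × Fin n, (q.1 < q.2 ∧ q.1 ∈ C l ∧ q.2 ∈ C l) ∧
        IsSquare (((Z.mat q.1).det * (Z.mat q.2).det).toNat * (e l q.1 * e l q.2)) := by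
      intro l
      obtain ⟨y, hy, hxy⟩ := (P l).model hxX
      have hμ : ∀ i, (P l).μ i ≠ 0 := by
        intro i
        by_cases hi : i ∈ C l
        · intro h
          have h2 := ((P l).cuspidal i hi).2.1
          rw [h, map_zero] at h2
          exact absurd h2.symm WithZero.coe_ne_zero
        · exact ((P l).ordinary i hi).scale_ne
      obtain ⟨V, hA1, hA2, hcount⟩ := Pool.Agent.U854.ZM.place_core (P l).σ (P l).v (P l).c (P l).μ
        hμ (fun t => ⟨((P l).F t).deg, ((P l).F t).coeff⟩) (P l).general hy hxy W hW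
      have hpair := Pool.Agent.U854.ZM.pair_core (P l).σ (P l).v (P l).prime (P l).mem (P l).c
        (P l).μ (C l) (e l) (P l).cuspidal (P l).τ (fun i hi => ((P l).ordinary i hi).odd)
        (fun i hi => ((P l).ordinary i hi).j_eq) (fun i hi => ((P l).ordinary i hi).cm)
        (fun i hi => ((P l).ordinary i hi).ordinary) (fun i hi => ((P l).ordinary i hi).not_zero)
        (fun i hi => ((P l).ordinary i hi).not_1728) (fun i hi => ((P l).ordinary i hi).scale_ne)
        (fun i hi => ((P l).ordinary i hi).scale_lt) (fun i hi => ((P l).ordinary i hi).radius)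
        (P l).not_isogenous hA1 hA2 Z' hxZ' hxy
      -- the units
      let G : Finset (Fin n) := Finset.univ.filter fun i => V.valuation (y i) = 1
      have hG : n ≤ G.card + {i | V.valuation (y i) ≠ 1}.ncard := by
        have e1 : {i | V.valuation (y i) ≠ 1}.ncard =
            (Finset.univ.filter fun i => ¬ V.valuation (y i) = 1).card := by
          rw [← Set.ncard_coe_finset]
          congr 1
          ext i
          simp
        rw [e1]
        have := Finset.card_filter_add_card_filter_not (s := (Finset.univ : Finset (Fin n)))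
          (fun i => V.valuation (y i) = 1)
        rw [Finset.card_univ, Fintype.card_fin] at this
        exact this.ge
      have hr : r < G.card := by omega
      have hex : ∃ i ∈ G, ∃ j ∈ G, i ≠ j ∧ Z.cls i = Z.cls j := by
        by_contra hno
        push Not at hno
        have hcard : G.card = (G.image Z.cls).card := by
          rw [Finset.card_image_of_injOn]
          intro i hi j hj hij
          by_contra hne
          exact hno i hi j hj hne hij
        have hsub : G.image Z.cls ⊆ (Finset.univ : Finset (Fin r)).image some := by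
          intro c hc
          obtain ⟨i, hi, rfl⟩ := Finset.mem_image.1 hc
          obtain ⟨k, hk⟩ := Option.ne_none_iff_exists'.1 (hpair i (Finset.mem_filter.1 hi).2).1
          have hk' : Z.cls i = some k := hk
          rw [hk']
          exact Finset.mem_image_of_mem _ (Finset.mem_univ k)
        have h3 : G.card ≤ r := by
          calc G.card = (G.image Z.cls).card := hcard
            _ ≤ _ := Finset.card_le_card hsub
            _ ≤ (Finset.univ : Finset (Fin r)).card := Finset.card_image_le
            _ = r := by simp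
        omega
      obtain ⟨i, hi, j, hj, hij, hcls⟩ := hex
      have hi' := (Finset.mem_filter.1 hi).2
      have hj' := (Finset.mem_filter.1 hj).2
      rcases lt_or_gt_of_ne hij with h | h
      · obtain ⟨h1, h2, h3⟩ := (hpair i hi').2 j hj' hij hcls
        exact ⟨(i, j), ⟨h, h1, h2⟩, h3⟩
      · obtain ⟨h1, h2, h3⟩ := (hpair j hj').2 i hi' hij.symm hcls.symm
        exact ⟨(j, i), ⟨h, h1, h2⟩, h3⟩
    choose q hq1 hq2 using key
    obtain ⟨l, l', -, hqq, hns⟩ := hsep q hq1
    apply hns
    have h1 := hq2 l
    have h2 := hq2 l'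
    rw [← hqq] at h2
    refine Pool.Agent.U854.ZM.square_cancel ?_ h1 h2
    have := mul_pos (Z.det_pos (q l).1) (Z.det_pos (q l).2)
    omega
  intro r Z
  refine ⟨hpt r Z, ?_⟩
  intro A hA hcl hprime
  obtain ⟨x, hxA, W, hW, hdim⟩ := Pool.Agent.W466.ZC.generic_dim ℚ A hprime hcl
  have h := hpt r Z x (hA hxA) W hW
  calc (n : Cardinal) + Pool.Agent.W282.ZP.zdim A ≤ (n : Cardinal) + (W.card : Cardinal) := by
        gcongr
    _ = ((n + W.card : ℕ) : Cardinal) := by push_cast; rfl
    _ ≤ ((m + r : ℕ) : Cardinal) := by exact_mod_cast h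
    _ = (m : Cardinal) + (r : Cardinal) := by push_cast; rfl

theorem separating_of_card_le_one {n : ℕ} {L : Type} (C : L → Finset (Fin n)) (e : L → Fin n → ℕ)
    (l : L) (h : (C l).card ≤ 1) : Separating C e := by
  intro q hq
  exfalso
  obtain ⟨h1, h2, h3⟩ := hq l
  exact h1.ne (Finset.card_le_one.1 h _ h2 _ h3)

theorem separating_of_many {n : ℕ} {L : Type} [Finite L] (C : L → Finset (Fin n))
    (e : L → Fin n → ℕ)
    (hcard : {q : Fin n × Fin n | q.1 < q.2 ∧ ∃ l, q.1 ∈ C l ∧ q.2 ∈ C l}.ncard < Nat.card L)
    (hind : ∀ l l', l ≠ l' → ∀ i j, i < j → i ∈ C l → j ∈ C l → i ∈ C l' → j ∈ C l' →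
      ¬ IsSquare (e l i * e l j * (e l' i * e l' j))) : Separating C e := by
  classical
  intro q hq
  have hno : ¬ Function.Injective q := by
    intro hinj
    have h1 : Nat.card L ≤
        Nat.card {q : Fin n × Fin n | q.1 < q.2 ∧ ∃ l, q.1 ∈ C l ∧ q.2 ∈ C l} :=
      Nat.card_le_card_of_injective (fun l => (⟨q l, (hq l).1, l, (hq l).2⟩ :
        {q : Fin n × Fin n | q.1 < q.2 ∧ ∃ l, q.1 ∈ C l ∧ q.2 ∈ C l}))
        (fun l l' h => hinj (congrArg Subtype.val h))
    rw [Nat.card_coe_set_eq] at h1
    omega
  simp only [Function.Injective, not_forall] at hno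
  obtain ⟨l, l', hqq, hne⟩ := hno
  refine ⟨l, l', hne, hqq, ?_⟩
  have h1 := hq l
  have h2 := hq l'
  rw [← hqq] at h2
  exact hind l l' hne _ _ h1.1 h1.2.1 h1.2.2 h2.2.1 h2.2.2

theorem moebius {n : ℕ} {C : Finset (Fin n)} {e : Fin n → ℕ} (D : LocalData C e)
    (hC : C.card ≤ 1) (a b : Fin n → 𝓞 D.K) (haa : ∀ i j, i ≠ j → a i - a j ∉ D.v.asIdeal)
    (hbb : ∀ i j, i ≠ j → b i - b j ∉ D.v.asIdeal) (hab : ∀ i j, a i - b j ∉ D.v.asIdeal) :
    NoAtypical (moebiusCurve D a b) 1 := by
  have hmax : D.v.asIdeal.IsMaximal := D.v.isMaximal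
  have hgen := Pool.Agent.U854.ZM.mob_general D.v.asIdeal a b haa hbb hab
  let P : Place (moebiusCurve D a b) 1 C e :=
    { D with
      T := {q : Fin n × Fin n // q.1 ≠ q.2}
      F := fun q => ⟨(Pool.Agent.U854.ZM.mobForm a b q.1).deg,
        (Pool.Agent.U854.ZM.mobForm a b q.1).coeff⟩
      general := hgen
      model := by
        rintro x ⟨t, ht⟩
        refine ⟨fun i => (t - D.σ (b i)) / (t - D.σ (a i)), ?_, fun i => (ht i).2⟩
        rintro ⟨q, hq⟩
        show (Pool.Agent.U854.ZM.mobForm a b q).eval (D.σ.comp (algebraMap (𝓞 D.K) D.K))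
          (fun i => (t - D.σ (b i)) / (t - D.σ (a i))) (fun _ => 1) = 0
        rw [Pool.Agent.U854.ZM.mobForm_eval _ _ _ hq]
        have h1 := sub_ne_zero.2 (ht q.1).1
        have h2 := sub_ne_zero.2 (ht q.2).1
        simp only [RingHom.comp_apply, mul_one]
        field_simp
        ring }
  exact main (moebiusCurve D a b) (L := Unit) (fun _ => C) (fun _ => e) (fun _ => P)
    (separating_of_card_le_one _ _ () hC)

/-- **Zilber-Pink for subvarieties of `Y(1)^n` with mixed local behaviour at finitely many places.** -/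
theorem result :
    -- the general criterion, and its two special cases
    (∀ (n m : ℕ) (X : Set (Fin n → ℂ)) (L : Type) (C : L → Finset (Fin n)) (e : L → Fin n → ℕ),
      (∀ l, Nonempty (Place X m (C l) (e l))) →
      (Separating C e → NoAtypical X m) ∧
      ((∃ l, (C l).card ≤ 1) → NoAtypical X m) ∧
      (Finite L → {q : Fin n × Fin n | q.1 < q.2 ∧ ∃ l, q.1 ∈ C l ∧ q.2 ∈ C l}.ncard < Nat.card L →
        (∀ l l', l ≠ l' → ∀ i j, i < j → i ∈ C l → j ∈ C l → i ∈ C l' → j ∈ C l' →
          ¬ IsSquare (e l i * e l j * (e l' i * e l' j))) → NoAtypical X m)) ∧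
    -- rational curves
    (∀ (n : ℕ) (C : Finset (Fin n)) (e : Fin n → ℕ) (D : LocalData C e), C.card ≤ 1 →
      ∀ a b : Fin n → 𝓞 D.K, (∀ i j, i ≠ j → a i - a j ∉ D.v.asIdeal) →
      (∀ i j, i ≠ j → b i - b j ∉ D.v.asIdeal) → (∀ i j, a i - b j ∉ D.v.asIdeal) →
      NoAtypical (moebiusCurve D a b) 1) := by
  refine ⟨?_, ?_⟩
  · intro n m X L C e hP
    refine ⟨fun h => main X C e (fun l => (hP l).some) h, ?_, ?_⟩
    · rintro ⟨l, hl⟩
      exact main X C e (fun l => (hP l).some) (separating_of_card_le_one C e l hl)
    · intro _ h1 h2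
      exact main X C e (fun l => (hP l).some) (separating_of_many C e h1 h2)
  · intro n C e D hC a b haa hbb hab
    exact moebius D hC a b haa hbb hab

end Pool.Agent.Results.MP_d83ecd_ag.MixedPlaces
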