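import Pool.Agent.U163.ZP.Elim
import Pool.Agent.Results.MP_d83ecd_ag.AnyLevelScaledImages

/-!
# MP_d83ecd_ag: Zilber-Pink for scaled images with several parameters

`Y(1)^n` is identified with `ℂ^n` by the elliptic modular function. For a vector `c` of positive
integers let `X_c ⊆ Y(1)^n` be the image of the set of the `(P_1, …, P_n)` in a product of modular
curves of any levels such that `c_i s_i (P_i) = f_i (y)` for a point `y` of a projective algebraic set
`B` of any dimension (`scaledImage`, starting file `AnyLevelScaledImages`; the `s_i` are functions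
integral over `K[j]`, the `f_i = A_i / B_i` are quotients of forms, and no point of `B` is on `m + 1` of
their divisors). Put `L = n² (T + 1)⁴ + 1`, where `T` bounds the degrees of the equations of the `s_i`.

Let `V ⊆ 𝔸^ν` be an irreducible affine variety over `ℚ` of dimension at most `r` (the parameter space),
given by its prime ideal `P`, and let `F_1, …, F_M` be polynomials over `ℤ`, `M ≥ L + r`, such that any
`r + 1` of the functions `F_l` on `V` are multiplicatively independent modulo constants. The parameters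
`t` are the integral points of `V` at which the `F_l` have almost coprime values: the common prime
divisors of two different values `F_l (t)`, `F_l' (t)` are at most `b`; moreover for `l` in a given set
`U` the value `F_l (t)` is composed of primes `≤ b` (`Admissible`). We study the scalings by

`c_i (t) = ∏_l |F_l (t)| ^ e_{l i}`.

**Theorem.** There is a function `H` on `V`, not identically zero, such that for ALL exponents `e`,
positive and independent modulo squares for `l ∉ U`, and for all admissible `t` with `H (t) ≠ 0` the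
set `X_{c (t)}` has no atypical intersection with special subvarieties: the exceptional parameters are
not Zariski dense in `V`, they are on one proper closed subset, which does not depend on `e`. If `V` is a
cone and the `F_l` are forms, then `H` can be taken to be a form; then the exceptional parameters are in
a proper closed cone (a finite number of lines, if `r = 2`).

In particular (second part) let `F_1, …, F_M` be nonconstant polynomials in `r` variables over `ℤ`,
pairwise coprime over `ℚ`, `M ≥ L + r`. Then all exceptional `t ∈ ℤ^r` at which the values of the `F_l`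
are almost coprime are on one hypersurface `H = 0` (a cone, if the `F_l` are forms).

The starting files have theorems with one parameter: for the family `c_i = ∏_l (k + l)^(e_{l i})` the
number of exceptions `k ≤ H` is at most a power of `log H` (`AnyLevelScaledImages`), and there are
finiteness theorems for one-parameter families (`RationalParameters`, `AlgebraicParameters`). Here the
number of parameters is arbitrary and they can be related by any equations.

Proof. By the criterion of `AnyLevelScaledImages`, if `X_{c (t)}` has an atypical intersection then less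
than `L` of the values `F_l (t)` have a prime divisor `> max (D, b)`. So `r + 1` of them are `S`-units
for a fixed finite set `S`. There is an algebraic relation between these `r + 1` functions on `V`; a
relation with the smallest number of terms has at least two terms and no vanishing subsum on `V`. Its
value at `t` is a sum of `S`-units which is zero; hence a proper subsum vanishes at `t`, or the ratio of
two of the terms, which is not constant on `V` because of the multiplicative independence, has one of
finitely many values (unit equation, starting library). The homogeneous form of the statement follows as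
the set of such `t` is stable under multiplication by powers of `2`.
-/

set_option autoImplicit false

namespace Pool.Agent.Results.MP_d83ecd_ag.SeveralParameters

open MvPolynomial
open Pool.Agent.Results.MP_d83ecd_ag.AnyLevelScaledImages (OnB NoAtypical scaledImage Spread)

/-- Any `r + 1` of the functions `F l` are multiplicatively independent modulo constants on the variety
of the prime ideal `P`. -/
def MultIndependent {ν M : ℕ} (P : Ideal (MvPolynomial (Fin ν) ℚ)) (r : ℕ)
    (F : Fin M → MvPolynomial (Fin ν) ℤ) : Prop :=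
  ∀ s : Finset (Fin M), s.card = r + 1 → ∀ a a' : Fin M → ℕ, (∀ l, l ∉ s → a l = 0 ∧ a' l = 0) →
    a ≠ a' → ∀ α : ℚ, ∏ l, map (Int.castRingHom ℚ) (F l) ^ a l -
      C α * ∏ l, map (Int.castRingHom ℚ) (F l) ^ a' l ∉ P

/-- The admissible parameters `t`: integral points of the variety `V` of `P` such that the values of
two different `F l` have no common prime divisor larger than `b`, and the values of the `F l` with
`l ∈ U` have no prime divisor larger than `b`. -/
def Admissible {ν M : ℕ} (P : Ideal (MvPolynomial (Fin ν) ℚ)) (F : Fin M → MvPolynomial (Fin ν) ℤ)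
    (U : Finset (Fin M)) (b : ℕ) (t : Fin ν → ℤ) : Prop :=
  (∀ f ∈ P, eval (fun i => (t i : ℚ)) f = 0) ∧
  (∀ l ∈ U, ∀ p : ℕ, p.Prime → (p : ℤ) ∣ eval t (F l) → p ≤ b) ∧
  ∀ l l', l ≠ l' → ∀ p : ℕ, p.Prime → (p : ℤ) ∣ eval t (F l) → (p : ℤ) ∣ eval t (F l') → p ≤ b

/-- The exponents with index outside of `U` are positive and independent modulo squares. -/
def IndependentExponents {n M : ℕ} (U : Finset (Fin M)) (e : Fin M → Fin n → ℕ) : Prop :=
  (∀ l, l ∉ U → ∀ i, 0 < e l i) ∧ ∀ l l', l ∉ U → l' ∉ U → l ≠ l' → ∀ i j, i ≠ j →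
    ¬ IsSquare (e l i * e l j * (e l' i * e l' j))

/-- The vector `c (t)` of the integers `∏_l |F_l (t)| ^ e_{l i}`. -/
noncomputable def scaling {n ν M : ℕ} (F : Fin M → MvPolynomial (Fin ν) ℤ) (e : Fin M → Fin n → ℕ)
    (t : Fin ν → ℤ) : Fin n → ℕ :=
  fun i => ∏ l, (eval t (F l)).natAbs ^ e l i

theorem spread_of {n ν M L : ℕ} (F : Fin M → MvPolynomial (Fin ν) ℤ) (U : Finset (Fin M)) (D : ℕ)
    (t : Fin ν → ℤ) (ht0 : ∀ l, eval t (F l) ≠ 0) (j : Fin L → Fin M) (hj : Function.Injective j)
    (hjU : ∀ a, j a ∉ U) (p : Fin L → ℕ) (hp : ∀ a, (p a).Prime ∧ D < p a ∧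
      (p a : ℤ) ∣ eval t (F (j a)) ∧ ∀ l', l' ≠ j a → ¬ (p a : ℤ) ∣ eval t (F l'))
    (e : Fin M → Fin n → ℕ) (he : IndependentExponents U e) : Spread L D (scaling F e t) := by
  have hfac : ∀ (a : Fin L) (i : Fin n), (scaling F e t i).factorization (p a) =
      e (j a) i * (eval t (F (j a))).natAbs.factorization (p a) := by
    intro a i
    refine Pool.Agent.U163.ZP.factorization_prod_exact (fun l => (eval t (F l)).natAbs)
      (fun l => Int.natAbs_ne_zero.2 (ht0 l)) (fun l => e l i) (j a) fun l hl hd => ?_
    exact (hp a).2.2.2 l hl (Int.natCast_dvd.2 hd)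
  have hpos : ∀ a : Fin L, 0 < (eval t (F (j a))).natAbs.factorization (p a) := fun a =>
    (hp a).1.factorization_pos_of_dvd (Int.natAbs_ne_zero.2 (ht0 _)) (Int.natCast_dvd.1 (hp a).2.2.1)
  refine ⟨p, fun a => ⟨(hp a).1, (hp a).2.1, fun i => ?_⟩, fun a a' haa i i' hii hsq => ?_⟩
  · rw [hfac]
    exact Nat.mul_pos (he.1 _ (hjU a) i) (hpos a)
  · rw [hfac, hfac, hfac, hfac] at hsq
    refine he.2 (j a) (j a') (hjU a) (hjU a') (fun h => haa (hj h)) i i' hii ?_
    set v := (eval t (F (j a))).natAbs.factorization (p a) with hv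
    set w := (eval t (F (j a'))).natAbs.factorization (p a') with hw
    have hvw : v * w ≠ 0 := (Nat.mul_pos (hpos a) (hpos a')).ne'
    obtain ⟨x, hx⟩ := hsq
    have h1 : (v * w) ^ 2 * (e (j a) i * e (j a) i' * (e (j a') i * e (j a') i')) = x ^ 2 := by
      rw [pow_two x, ← hx]
      ring
    have h2 : (v * w) ∣ x := by
      rw [← Nat.pow_dvd_pow_iff two_ne_zero, ← h1]
      exact dvd_mul_right _ _
    obtain ⟨y, rfl⟩ := h2
    refine ⟨y, ?_⟩
    apply mul_left_cancel₀ (pow_ne_zero 2 hvw)
    rw [h1]
    ring

/-- **Zilber-Pink for scaled images with several parameters.** -/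
theorem result {κ : Type*} (K : Subfield ℂ) [Countable K] (N n m : ℕ)
    (G : κ → MvPolynomial (Fin (N + 1)) K) (hG : ∀ k, ∃ e, (G k).IsHomogeneous e)
    (A B : Fin n → MvPolynomial (Fin (N + 1)) K) (d : Fin n → ℕ)
    (hA : ∀ i, (A i).IsHomogeneous (d i)) (hB : ∀ i, (B i).IsHomogeneous (d i))
    (hpos : ∀ I : Finset (Fin n), I.card = m + 1 → ∀ y, OnB G y →
      ∃ i ∈ I, aeval y (A i) * aeval y (B i) ≠ 0)
    (R : Fin n → Polynomial (Polynomial K)) (hR : ∀ i, (R i).Monic)
    (T : ℕ) (hT : ∀ i u w, ((R i).coeff u).coeff w ≠ 0 → u ≤ T ∧ w ≤ T)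
    (Γ : Finset ℂ) (hΓ : ∀ γ ∈ Γ, γ ∈ K) (L : ℕ) (hL : L = n * n * (T + 1) ^ 4 + 1)
    (M r : ℕ) (hM : L + r ≤ M) (U : Finset (Fin M)) (b : ℕ) :
    (∀ (ν : ℕ) (P : Ideal (MvPolynomial (Fin ν) ℚ)), P.IsPrime →
      Algebra.trdeg ℚ (MvPolynomial (Fin ν) ℚ ⧸ P) ≤ r →
      ∀ F : Fin M → MvPolynomial (Fin ν) ℤ, MultIndependent P r F →
      ∃ H : MvPolynomial (Fin ν) ℚ, H ∉ P ∧
        ((∀ f ∈ P, ∀ j, homogeneousComponent j f ∈ P) → (∀ l, ∃ j, (F l).IsHomogeneous j) →
          ∃ j, H.IsHomogeneous j) ∧
        ∀ e : Fin M → Fin n → ℕ, IndependentExponents U e → ∀ t, Admissible P F U b t →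
          eval (fun i => (t i : ℚ)) H ≠ 0 →
          NoAtypical K Γ m (scaledImage G A B R (scaling F e t))) ∧
    ∀ F : Fin M → MvPolynomial (Fin r) ℤ, (∀ l, 0 < (F l).totalDegree) →
      (∀ l l', l ≠ l' → IsRelPrime (map (Int.castRingHom ℚ) (F l)) (map (Int.castRingHom ℚ) (F l'))) →
      ∃ H : MvPolynomial (Fin r) ℚ, H ≠ 0 ∧
        ((∀ l, ∃ j, (F l).IsHomogeneous j) → ∃ j, H.IsHomogeneous j) ∧
        ∀ e : Fin M → Fin n → ℕ, IndependentExponents U e → ∀ t, Admissible ⊥ F U b t →
          eval (fun i => (t i : ℚ)) H ≠ 0 →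
          NoAtypical K Γ m (scaledImage G A B R (scaling F e t)) := by
  classical
  obtain ⟨D, hD, -, -⟩ := Pool.Agent.Results.MP_d83ecd_ag.AnyLevelScaledImages.result K N n m G hG A B
    d hA hB hpos R hR T hT Γ hΓ L hL
  have hLpos : 0 < L := by rw [hL]; exact Nat.succ_pos _
  have main : ∀ (ν : ℕ) (P : Ideal (MvPolynomial (Fin ν) ℚ)), P.IsPrime →
      Algebra.trdeg ℚ (MvPolynomial (Fin ν) ℚ ⧸ P) ≤ r →
      ∀ F : Fin M → MvPolynomial (Fin ν) ℤ, MultIndependent P r F →
      ∃ H : MvPolynomial (Fin ν) ℚ, H ∉ P ∧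
        ((∀ f ∈ P, ∀ j, homogeneousComponent j f ∈ P) → (∀ l, ∃ j, (F l).IsHomogeneous j) →
          ∃ j, H.IsHomogeneous j) ∧
        ∀ e : Fin M → Fin n → ℕ, IndependentExponents U e → ∀ t, Admissible P F U b t →
          eval (fun i => (t i : ℚ)) H ≠ 0 →
          NoAtypical K Γ m (scaledImage G A B R (scaling F e t)) := by
    intro ν P hP hr F hF
    obtain ⟨H, hH, hhom, hcore⟩ := Pool.Agent.U163.ZP.core P L r hLpos hM hr F
      (fun s hs a a' ha ha' hne α => hF s hs a a'
        (fun l hl => ⟨Finsupp.notMem_support_iff.1 fun h => hl (ha h),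
          Finsupp.notMem_support_iff.1 fun h => hl (ha' h)⟩)
        (fun h => hne (DFunLike.coe_injective h)) α) U D b
    refine ⟨H, hH, hhom, fun e he t ht htH => hD _ ?_⟩
    obtain ⟨ht0, j, hj, hjU, p, hp⟩ := hcore t ht.1 ht.2.1 ht.2.2 htH
    exact spread_of F U D t ht0 j hj hjU p hp e he
  refine ⟨main, fun F hF1 hF2 => ?_⟩
  obtain ⟨H, hH, hhom, h⟩ := main r ⊥ Ideal.isPrime_bot (Pool.Agent.U163.ZP.trdeg_bot r) F (by
    intro s _ a a' _ hne α
    exact Pool.Agent.U163.ZP.not_mem_bot (fun l => Pool.Agent.U163.ZP.toQ_ne_zero (hF1 l))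
      (fun l => Pool.Agent.U163.ZP.not_isUnit_toQ (hF1 l)) hF2 hne α)
  refine ⟨H, fun h0 => hH (Ideal.mem_bot.2 h0), fun h1 => hhom ?_ h1, h⟩
  intro f hf j
  rw [Ideal.mem_bot] at hf ⊢
  rw [hf, map_zero]

end Pool.Agent.Results.MP_d83ecd_ag.SeveralParameters
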